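import Pool.Agent.MJI.Fin
import Pool.Agent.MJI.Assem

/-!
Degree bounds for the coefficients `h`, and the two leading coefficients of the coefficients `c`:
definitions.  The Lax operator `LB al be` has two parameters, the weight `al` of the derivations
and the weight `be` of the diagonal part; the operator of `MJI` is the case `be = al - 1`.
-/

namespace Pool.Agent.MJD

open MvPolynomial Pool.Agent.MJR Pool.Agent.MJR.GradeM Pool.Agent.MJT
open Pool.Agent.MJI (dB BI)

noncomputable section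

variable {K : Type} [Field K]

/-- The full Lax operator in the alphabet `a`, on sequences, cut at `N`. -/
def LB (al be : K) (a : Fin 3) (N : ℕ) (f : ℕ → B3 K) (i : ℕ) : B3 K :=
  ∑ k ∈ Finset.Icc 1 N, X (a, k) * f (i + k) + ∑ k ∈ Finset.Icc 1 i, dB al a k (f (i - k)) +
    C (be * (i : K)) * f i

/-- The operator `LB` on the first index. -/
def LB1 (al be : K) (a : Fin 3) (N : ℕ) (h : ℕ → ℕ → B3 K) (i j : ℕ) : B3 K :=
  LB al be a N (fun i' => h i' j) i

/-- The operator `LB` on the second index. -/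
def LB2 (al be : K) (a : Fin 3) (N : ℕ) (h : ℕ → ℕ → B3 K) (i j : ℕ) : B3 K :=
  LB al be a N (fun j' => h i j') j

/-- `F n` is the level `n` of a series in three alphabets, `W n` the level `n` of its extension
by `w` (with the alphabet `b`) and `v` (with the alphabet `c`). -/
structure Sys (al be : K) (a b c : Fin 3) (F : ℕ → B3 K) (W : ℕ → ℕ → ℕ → B3 K) : Prop where
  z1 : ∀ n i, W n i 0 = if i = 0 then F n else 0
  s1 : ∀ n i j, n < i → W n i j = 0
  s2 : ∀ n i j, n < j → W n i j = 0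
  L : ∀ N n, n ≤ N → ∀ i j, LB1 al be b N (W n) i j = LB2 al be c N (W n) i j
  E : ∀ m N n, n ≤ N → ((LB al be a N)^[m] (fun j => dB al a (j + 1) (F (n + 1)))) 0 =
    ∑ i ∈ Finset.range (N + 1), ∑ j ∈ Finset.range (N + 1),
      X (b, i + 1) * X (c, j + 1) * ((LB1 al be b N)^[m] (W n)) i j

/-- Integrality from `(L_b - L_c) h` and from `h` at `v = 0`. -/
def Int1St (K : Type) [Field K] (al be : K) : Prop :=
  ∀ (G : Subring K), al ∈ G → be ∈ G → ∀ (b c : Fin 3), b ≠ c → ∀ (N : ℕ) (h : ℕ → ℕ → B3 K),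
    (∀ i j, N < i → h i j = 0) → (∀ i j, N < j → h i j = 0) →
    (∀ i, h i 0 ∈ BI (σ := Fin 3 × ℕ) G) →
    (∀ i j, LB1 al be b N h i j - LB2 al be c N h i j ∈ BI (σ := Fin 3 × ℕ) G) →
    ∀ i j, h i j ∈ BI (σ := Fin 3 × ℕ) G

/-- Integrality from the constant terms of the `L^m f`. -/
def Int2St (K : Type) [Field K] (al be : K) : Prop :=
  ∀ (G : Subring K), al ∈ G → be ∈ G → ∀ (a : Fin 3) (N : ℕ) (f : ℕ → B3 K),
    (∀ i, N < i → f i = 0) → (∀ m, ((LB al be a N)^[m] f) 0 ∈ BI (σ := Fin 3 × ℕ) G) →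
    ∀ i, f i ∈ BI (σ := Fin 3 × ℕ) G

/-- The induction on the level. -/
def MainSt (K : Type) [Field K] (al be : K) : Prop :=
  ∀ (G : Subring K), al ∈ G → be ∈ G → ∀ (F : ℕ → B3 K), F 0 = 1 →
    (∀ a k n, n < k → dB al a k (F n) = 0) →
    (∀ a : Fin 3, ∃ b c : Fin 3, b ≠ c ∧ ∃ W, Sys al be a b c F W) →
    ∀ (psi : Fin 3 → ℕ → ℕ → B3 K),
    (∀ a k n, dB al a k (F n) = ∑ x ∈ Finset.HasAntidiagonal.antidiagonal n, F x.1 * psi a k x.2) →
    ∀ a k n, psi a k n ∈ BI (σ := Fin 3 × ℕ) G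

end

end Pool.Agent.MJD
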