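import Pool.Agent.MJR.Fin

/-!
The local ring of `ℚ(al)` at infinity and the leading coefficients of polynomials in
`b = al - 1`.
-/

namespace Pool.Agent.MJD

open Pool.Agent.MJR (QA)

noncomputable section

namespace InfM

/-- `b = al - 1` -/
def bb : QA := RatFunc.X - 1

/-- `1 / b` -/
def ep : QA := bb⁻¹

/-- a polynomial in `b` -/
def evb (P : Polynomial ℚ) : QA := P.eval₂ (algebraMap ℚ QA) bb

theorem bb_eq : bb = algebraMap (Polynomial ℚ) QA (Polynomial.X - Polynomial.C 1) := by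
  unfold bb
  rw [map_sub, Polynomial.C_1, map_one, RatFunc.algebraMap_X]

theorem evb_eq (P : Polynomial ℚ) :
    evb P = algebraMap (Polynomial ℚ) QA (P.comp (Polynomial.X - Polynomial.C 1)) := by
  unfold evb
  rw [Polynomial.comp, Polynomial.hom_eval₂, bb_eq]
  congr 1
  exact Subsingleton.elim _ _

theorem bb_ne : bb ≠ 0 := by
  rw [bb_eq]
  intro h
  have h1 := (map_eq_zero_iff (algebraMap (Polynomial ℚ) QA) (RatFunc.algebraMap_injective ℚ)).1 h
  exact Polynomial.X_sub_C_ne_zero 1 h1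

theorem ep_ne : ep ≠ 0 := inv_ne_zero bb_ne

theorem deg_bb : bb.intDegree = 1 := by
  rw [bb_eq, RatFunc.intDegree_polynomial, Polynomial.natDegree_X_sub_C]
  rfl

theorem comp_ne {P : Polynomial ℚ} (hP : P ≠ 0) :
    P.comp (Polynomial.X - Polynomial.C 1) ≠ 0 := by
  intro h
  apply hP
  have h1 : (P.comp (Polynomial.X - Polynomial.C 1)).comp (Polynomial.X + Polynomial.C 1) = P := by
    rw [Polynomial.comp_assoc]
    simp
  rw [← h1, h, Polynomial.zero_comp]

theorem evb_ne {P : Polynomial ℚ} (hP : P ≠ 0) : evb P ≠ 0 := by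
  rw [evb_eq]
  intro h
  have h1 := (map_eq_zero_iff (algebraMap (Polynomial ℚ) QA) (RatFunc.algebraMap_injective ℚ)).1 h
  exact comp_ne hP h1

theorem deg_ev (P : Polynomial ℚ) : (evb P).intDegree = P.natDegree := by
  rw [evb_eq, RatFunc.intDegree_polynomial, Polynomial.natDegree_comp,
    Polynomial.natDegree_X_sub_C, mul_one]

theorem evb_add (P Q : Polynomial ℚ) : evb (P + Q) = evb P + evb Q := Polynomial.eval₂_add _ _

theorem evb_mul (P Q : Polynomial ℚ) : evb (P * Q) = evb P * evb Q := Polynomial.eval₂_mul _ _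

theorem evb_sub (P Q : Polynomial ℚ) : evb (P - Q) = evb P - evb Q := by
  unfold evb
  rw [Polynomial.eval₂_sub]

theorem evb_monomial (n : ℕ) (a : ℚ) : evb (Polynomial.monomial n a) = algebraMap ℚ QA a * bb ^ n :=
  Polynomial.eval₂_monomial _ _

theorem evb_injective {P Q : Polynomial ℚ} (h : evb P = evb Q) : P = Q := by
  by_contra h1
  have h2 : P - Q ≠ 0 := sub_ne_zero.2 h1
  exact evb_ne h2 (by rw [evb_sub, h, sub_self])

theorem zpow_deg (z : ℤ) : (bb ^ z).intDegree = z := by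
  have h1 : ∀ n : ℕ, (bb ^ n).intDegree = (n : ℤ) := by
    intro n
    induction n with
    | zero => rw [pow_zero, RatFunc.intDegree_one]; rfl
    | succ n ih =>
      rw [pow_succ, RatFunc.intDegree_mul (pow_ne_zero _ bb_ne) bb_ne, ih, deg_bb]
      push_cast
      rfl
  rcases Int.eq_nat_or_neg z with ⟨n, rfl | rfl⟩
  · rw [zpow_natCast, h1]
  · rw [zpow_neg, zpow_natCast, RatFunc.intDegree_inv, h1]

/-- The local ring at infinity. -/
def Oi : Subring QA where
  carrier := {f | f = 0 ∨ f.intDegree ≤ 0}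
  mul_mem' := by
    rintro f g hf hg
    by_cases h1 : f = 0
    · left
      rw [h1, zero_mul]
    by_cases h2 : g = 0
    · left
      rw [h2, mul_zero]
    right
    rw [RatFunc.intDegree_mul h1 h2]
    have h3 := hf.resolve_left h1
    have h4 := hg.resolve_left h2
    omega
  one_mem' := by
    right
    rw [RatFunc.intDegree_one]
  add_mem' := by
    rintro f g hf hg
    by_cases h0 : f + g = 0
    · exact Or.inl h0
    by_cases h2 : g = 0
    · rw [h2, add_zero]
      exact hf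
    by_cases h1 : f = 0
    · rw [h1, zero_add]
      exact hg
    right
    have h3 := RatFunc.intDegree_add_le h2 h0
    have h4 := hf.resolve_left h1
    have h5 := hg.resolve_left h2
    exact h3.trans (max_le h4 h5)
  zero_mem' := Or.inl rfl
  neg_mem' := by
    rintro f hf
    rcases hf with rfl | hf
    · left
      exact neg_zero
    · right
      rw [RatFunc.intDegree_neg]
      exact hf

theorem mem_Oi {f : QA} : f ∈ Oi ↔ f = 0 ∨ f.intDegree ≤ 0 := Iff.rfl

theorem zpow_mem {z : ℤ} (hz : z ≤ 0) : bb ^ z ∈ Oi := Or.inr (by rw [zpow_deg]; exact hz)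

theorem ep_mem : ep ∈ Oi := by
  have h := zpow_mem (z := -1) (by omega)
  rw [zpow_neg_one] at h
  exact h

theorem rat_mem (a : ℚ) : algebraMap ℚ QA a ∈ Oi := by
  right
  have h : algebraMap ℚ QA a = RatFunc.C a :=
    congrArg (fun f : ℚ →+* QA => f a) (Subsingleton.elim (algebraMap ℚ QA) RatFunc.C)
  rw [h, RatFunc.intDegree_C]

theorem coeff_zero_of (P : Polynomial ℚ) (d : ℤ) (h : bb ^ (-d) * evb P ∈ Oi) (i : ℕ)
    (hi : d < i) : P.coeff i = 0 := by
  by_contra h1
  have hP : P ≠ 0 := by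
    rintro rfl
    exact h1 (Polynomial.coeff_zero i)
  have h2 := Polynomial.le_natDegree_of_ne_zero h1
  rcases h with h | h
  · exact (mul_ne_zero (zpow_ne_zero _ bb_ne) (evb_ne hP)) h
  · rw [RatFunc.intDegree_mul (zpow_ne_zero _ bb_ne) (evb_ne hP), zpow_deg, deg_ev] at h
    omega

theorem mem_of_coeff_zero (P : Polynomial ℚ) (d : ℤ) (h : ∀ i : ℕ, d < i → P.coeff i = 0) :
    bb ^ (-d) * evb P ∈ Oi := by
  by_cases hP : P = 0
  · left
    rw [hP]
    unfold evb
    rw [Polynomial.eval₂_zero, mul_zero]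
  · right
    rw [RatFunc.intDegree_mul (zpow_ne_zero _ bb_ne) (evb_ne hP), zpow_deg, deg_ev]
    by_contra h1
    have h2 := h P.natDegree (by omega)
    exact hP (Polynomial.leadingCoeff_eq_zero.1 h2)

/-- The elements `q(1/b) + O(1/b^k)` where `q` has nonnegative coefficients. -/
def Pk (k : ℕ) : Subsemiring QA where
  carrier := {f | ∃ q : Polynomial ℚ, (∀ i, 0 ≤ q.coeff i) ∧ ∃ o ∈ Oi,
    f = q.eval₂ (algebraMap ℚ QA) ep + ep ^ k * o}
  mul_mem' := by
    rintro f g ⟨q, hq, o, ho, rfl⟩ ⟨q', hq', o', ho', rfl⟩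
    refine ⟨q * q', fun i => ?_, q.eval₂ (algebraMap ℚ QA) ep * o' +
      (q'.eval₂ (algebraMap ℚ QA) ep + ep ^ k * o') * o, ?_, ?_⟩
    · rw [Polynomial.coeff_mul]
      exact Finset.sum_nonneg fun x _ => mul_nonneg (hq _) (hq' _)
    · have h1 : ∀ q : Polynomial ℚ, q.eval₂ (algebraMap ℚ QA) ep ∈ Oi := by
        intro q
        rw [Polynomial.eval₂_eq_sum]
        exact Subring.sum_mem _ fun i _ => mul_mem (rat_mem _) (pow_mem ep_mem _)
      exact add_mem (mul_mem (h1 q) ho')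
        (mul_mem (add_mem (h1 q') (mul_mem (pow_mem ep_mem _) ho')) ho)
    · rw [Polynomial.eval₂_mul]
      ring
  one_mem' := by
    refine ⟨1, fun i => ?_, 0, zero_mem _, ?_⟩
    · rw [Polynomial.coeff_one]
      split_ifs
      · exact zero_le_one
      · exact le_rfl
    · rw [Polynomial.eval₂_one, mul_zero, add_zero]
  add_mem' := by
    rintro f g ⟨q, hq, o, ho, rfl⟩ ⟨q', hq', o', ho', rfl⟩
    refine ⟨q + q', fun i => ?_, o + o', add_mem ho ho', ?_⟩
    · rw [Polynomial.coeff_add]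
      exact add_nonneg (hq i) (hq' i)
    · rw [Polynomial.eval₂_add]
      ring
  zero_mem' := by
    refine ⟨0, fun i => ?_, 0, zero_mem _, ?_⟩
    · rw [Polynomial.coeff_zero]
    · rw [Polynomial.eval₂_zero, mul_zero, add_zero]

theorem mem_Pk {k : ℕ} {f : QA} : f ∈ Pk k ↔ ∃ q : Polynomial ℚ, (∀ i, 0 ≤ q.coeff i) ∧
    ∃ o ∈ Oi, f = q.eval₂ (algebraMap ℚ QA) ep + ep ^ k * o := Iff.rfl

theorem ep_Oi_mem {k : ℕ} {o : QA} (ho : o ∈ Oi) : ep ^ k * o ∈ Pk k := by
  refine ⟨0, fun i => ?_, o, ho, ?_⟩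
  · rw [Polynomial.coeff_zero]
  · rw [Polynomial.eval₂_zero, zero_add]

theorem nonneg_mem {k : ℕ} {a : ℚ} (ha : 0 ≤ a) : algebraMap ℚ QA a ∈ Pk k := by
  refine ⟨Polynomial.C a, fun i => ?_, 0, zero_mem _, ?_⟩
  · rw [Polynomial.coeff_C]
    split_ifs
    · exact ha
    · exact le_rfl
  · rw [Polynomial.eval₂_C, mul_zero, add_zero]

theorem ep_mem_Pk (k : ℕ) : ep ∈ Pk k := by
  refine ⟨Polynomial.X, fun i => ?_, 0, zero_mem _, ?_⟩
  · rw [Polynomial.coeff_X]
    split_ifs
    · exact zero_le_one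
    · exact le_rfl
  · rw [Polynomial.eval₂_X, mul_zero, add_zero]

theorem inv_mem (k n : ℕ) : ((n : QA)⁻¹) ∈ Pk k := by
  have h : ((n : QA)⁻¹) = algebraMap ℚ QA ((n : ℚ)⁻¹) := by
    rw [map_inv₀, map_natCast]
  rw [h]
  exact nonneg_mem (by positivity)

theorem Oi_of_Pk {k : ℕ} {f : QA} (h : f ∈ Pk k) : f ∈ Oi := by
  obtain ⟨q, _, o, ho, rfl⟩ := h
  refine add_mem ?_ (mul_mem (pow_mem ep_mem _) ho)
  rw [Polynomial.eval₂_eq_sum]
  exact Subring.sum_mem _ fun i _ => mul_mem (rat_mem _) (pow_mem ep_mem _)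

theorem mul_ep_mem {k : ℕ} {f : QA} (h : f ∈ Pk k) : ep * f ∈ Pk (k + 1) := by
  obtain ⟨q, hq, o, ho, rfl⟩ := h
  refine ⟨Polynomial.X * q, fun i => ?_, o, ho, ?_⟩
  · rcases i with _ | i
    · rw [Polynomial.coeff_X_mul_zero]
    · rw [Polynomial.coeff_X_mul]
      exact hq i
  · rw [Polynomial.eval₂_mul, Polynomial.eval₂_X]
    ring

/-- The leading coefficients of a polynomial are nonnegative. -/
theorem coeff_nonneg_of (k : ℕ) : ∀ (P : Polynomial ℚ) (d : ℤ), bb ^ (-d) * evb P ∈ Pk k →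
    ∀ i : ℕ, d - k < i → 0 ≤ P.coeff i := by
  induction k with
  | zero =>
    intro P d h i hi
    rw [coeff_zero_of P d (Oi_of_Pk h) i (by push_cast at hi; omega)]
  | succ k ih =>
    intro P d h i hi
    rcases lt_or_ge d 0 with hd | hd
    · rw [coeff_zero_of P d (Oi_of_Pk h) i (by omega)]
    obtain ⟨n, rfl⟩ := Int.eq_ofNat_of_zero_le hd
    obtain ⟨q, hq, o, ho, he⟩ := h
    have e1 : bb ^ (-((n : ℤ) - 1)) * evb (P - Polynomial.monomial n (q.coeff 0)) =
        q.divX.eval₂ (algebraMap ℚ QA) ep + ep ^ k * o := by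
      have e2 : q.eval₂ (algebraMap ℚ QA) ep =
          algebraMap ℚ QA (q.coeff 0) + ep * q.divX.eval₂ (algebraMap ℚ QA) ep := by
        conv_lhs => rw [← Polynomial.divX_mul_X_add q]
        rw [Polynomial.eval₂_add, Polynomial.eval₂_mul, Polynomial.eval₂_X, Polynomial.eval₂_C]
        ring
      have e3 : bb ^ (-((n : ℤ) - 1)) = bb * bb ^ (-(n : ℤ)) := by
        rw [neg_sub, sub_eq_add_neg, zpow_add₀ bb_ne, zpow_one]
      have e4 : bb * ep = 1 := mul_inv_cancel₀ bb_ne
      have e5 : bb ^ (-(n : ℤ)) * bb ^ n = 1 := by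
        rw [← zpow_natCast, ← zpow_add₀ bb_ne, neg_add_cancel, zpow_zero]
      rw [evb_sub, evb_monomial, mul_sub, e3, mul_assoc, he, e2]
      have e6 : bb * bb ^ (-(n : ℤ)) * (algebraMap ℚ QA (q.coeff 0) * bb ^ n) =
          bb * algebraMap ℚ QA (q.coeff 0) * (bb ^ (-(n : ℤ)) * bb ^ n) := by ring
      rw [e6, e5]
      have e7 : bb * (algebraMap ℚ QA (q.coeff 0) + ep * Polynomial.eval₂ (algebraMap ℚ QA) ep q.divX +
          ep ^ (k + 1) * o) - bb * algebraMap ℚ QA (q.coeff 0) * 1 =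
          (bb * ep) * Polynomial.eval₂ (algebraMap ℚ QA) ep q.divX + (bb * ep) * (ep ^ k * o) := by
        ring
      rw [e7, e4, one_mul, one_mul]
    have h1 := ih (P - Polynomial.monomial n (q.coeff 0)) ((n : ℤ) - 1)
      ⟨q.divX, fun i => by rw [Polynomial.coeff_divX]; exact hq _, o, ho, e1⟩ i
      (by push_cast at hi; omega)
    rw [Polynomial.coeff_sub, Polynomial.coeff_monomial] at h1
    split_ifs at h1 with h2
    · have := hq 0
      linarith
    · rw [sub_zero] at h1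
      exact h1

/-- Polynomials with nonnegative leading coefficients. -/
theorem mem_of_nonneg (k : ℕ) : ∀ (P : Polynomial ℚ) (d : ℤ),
    (∀ i : ℕ, d < i → P.coeff i = 0) → (∀ i : ℕ, d - k < i → 0 ≤ P.coeff i) →
    bb ^ (-d) * evb P ∈ Pk k := by
  induction k with
  | zero =>
    intro P d h _
    have h1 := ep_Oi_mem (k := 0) (mem_of_coeff_zero P d h)
    rw [pow_zero, one_mul] at h1
    exact h1
  | succ k ih =>
    intro P d h h'
    rcases lt_or_ge d 0 with hd | hd
    · have h0 : P = 0 := by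
        ext i
        rw [h i (by omega), Polynomial.coeff_zero]
      rw [h0]
      have e : evb 0 = 0 := Polynomial.eval₂_zero _ _
      rw [e, mul_zero]
      exact zero_mem _
    obtain ⟨n, rfl⟩ := Int.eq_ofNat_of_zero_le hd
    have h1 := ih (P - Polynomial.monomial n (P.coeff n)) ((n : ℤ) - 1) (by
      intro i hi
      rw [Polynomial.coeff_sub, Polynomial.coeff_monomial]
      split_ifs with h2
      · rw [h2, sub_self]
      · rw [sub_zero]
        exact h i (by omega)) (by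
      intro i hi
      rw [Polynomial.coeff_sub, Polynomial.coeff_monomial]
      split_ifs with h2
      · rw [h2, sub_self]
      · rw [sub_zero]
        exact h' i (by push_cast; omega))
    have h2 := mul_ep_mem h1
    have h3 : algebraMap ℚ QA (P.coeff n) ∈ Pk (k + 1) := nonneg_mem (h' n (by push_cast; omega))
    have h4 := add_mem h3 h2
    have e3 : bb ^ (-((n : ℤ) - 1)) = bb * bb ^ (-(n : ℤ)) := by
      rw [neg_sub, sub_eq_add_neg, zpow_add₀ bb_ne, zpow_one]
    have e4 : ep * bb = 1 := inv_mul_cancel₀ bb_ne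
    have e5 : bb ^ (-(n : ℤ)) * bb ^ n = 1 := by
      rw [← zpow_natCast, ← zpow_add₀ bb_ne, neg_add_cancel, zpow_zero]
    have e6 : algebraMap ℚ QA (P.coeff n) + ep * (bb ^ (-((n : ℤ) - 1)) *
        evb (P - Polynomial.monomial n (P.coeff n))) = bb ^ (-(n : ℤ)) * evb P := by
      rw [evb_sub, evb_monomial, e3]
      have e7 : algebraMap ℚ QA (P.coeff n) + ep * (bb * bb ^ (-(n : ℤ)) *
          (evb P - algebraMap ℚ QA (P.coeff n) * bb ^ n)) =
          algebraMap ℚ QA (P.coeff n) + (ep * bb) * (bb ^ (-(n : ℤ)) * evb P) -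
          (ep * bb) * (algebraMap ℚ QA (P.coeff n) * (bb ^ (-(n : ℤ)) * bb ^ n)) := by ring
      rw [e7, e4, e5]
      ring
    rw [e6] at h4
    exact h4

end InfM

end

end Pool.Agent.MJD
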