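import Pool.Agent.MJD.Scal
import Pool.Agent.MJD.Inf

/-!
The degree of the coefficients `h`.
-/

namespace Pool.Agent.MJD

open MvPolynomial Pool.Agent.MJR Pool.Agent.MJR.GradeM Pool.Agent.MJT
open Pool.Agent.MJI (dB BI)
open InfM ScalM

noncomputable section

namespace DegM

theorem expo3_prod {K : Type} [Field K] (c : Fin 3 → K) {n : ℕ} (t m v : n.Partition) :
    ((expo3 t m v).prod fun s n => c s.1 ^ n) =
      c 0 ^ t.parts.card * c 1 ^ m.parts.card * c 2 ^ v.parts.card := by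
  classical
  have h1 : ∀ s : Multiset (Fin 3 × ℕ), ((Multiset.toFinsupp s).prod fun x n => c x.1 ^ n) =
      (s.map fun x => c x.1).prod := by
    intro s
    rw [Finset.prod_multiset_map_count]
    unfold Finsupp.prod
    rw [Multiset.toFinsupp_support]
    refine Finset.prod_congr rfl fun x _ => ?_
    rw [Multiset.toFinsupp_apply]
  unfold expo3
  rw [h1, Multiset.map_add, Multiset.map_add, Multiset.prod_add, Multiset.prod_add]
  simp only [Multiset.map_map, Function.comp_def, Multiset.map_const', Multiset.prod_replicate]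

open MJI.MainM in
/-- The degree of `h`. -/
theorem deg_h (J : (n : ℕ) → n.Partition → n.Partition → QA)
    (hJ : ∀ n, IsJack RatFunc.X n (J n)) (psi : PowerSeries (B3 QA))
    (hpsi : IsPsi RatFunc.X J psi) {n : ℕ} (t m v : n.Partition) :
    bb ^ (-((n : ℤ) + 2 - t.parts.card - m.parts.card - v.parts.card)) * hc psi t m v ∈ Oi := by
  classical
  have hP := MJI.phim
  set Φ : PowerSeries (B3 QA) := phi RatFunc.X J with hΦ
  have hΦ0 : PowerSeries.coeff 0 Φ = 1 := hP.one J hJ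
  have h0 : PowerSeries.constantCoeff Φ = ((1 : (B3 QA)ˣ) : B3 QA) := by
    rw [← PowerSeries.coeff_zero_eq_constantCoeff_apply, hΦ0, Units.val_one]
  have hinv := PowerSeries.mul_invOfUnit Φ 1 h0
  set s : Fin 3 → ℕ → PowerSeries (B3 QA) := fun a k =>
    PowerSeries.invOfUnit Φ 1 * dP RatFunc.X a k Φ with hs
  have hds : ∀ a k, Φ * s a k = dP RatFunc.X a k Φ := by
    intro a k
    rw [hs]
    beta_reduce
    rw [← mul_assoc, hinv, one_mul]
  obtain ⟨W, hW⟩ := MJI.sysSt J hJ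
  have hper : ∀ (σ : Equiv.Perm (Fin 3)), (fun n => MJI.perm QA σ (PowerSeries.coeff n Φ)) =
      fun n => PowerSeries.coeff n Φ := by
    intro σ
    funext n
    exact hP.per J σ n
  have hsys : ∀ a : Fin 3, ∃ b c : Fin 3, b ≠ c ∧ ∃ W,
      Sys (RatFunc.X * (bb⁻¹) ^ 2) (bb * bb⁻¹) a b c
        (fun n => C ((bb⁻¹) ^ n) * su bb (PowerSeries.coeff n Φ)) W := by
    intro a
    have h := MJI.per QA RatFunc.X (Equiv.swap 0 a) 0 1 2 _ W hW
    rw [hper, Equiv.swap_apply_left] at h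
    refine ⟨_, _, (Equiv.swap 0 a).injective.ne (by decide), _,
      sys_sc RatFunc.X bb bb_ne ⟨h.z1, h.s1, h.s2, h.L, h.E⟩⟩
  have hal : (RatFunc.X : QA) * (bb⁻¹) ^ 2 ∈ Oi := by
    right
    rw [RatFunc.intDegree_mul RatFunc.X_ne_zero (pow_ne_zero _ (inv_ne_zero bb_ne)),
      RatFunc.intDegree_X]
    have h1 := zpow_deg (-2)
    rw [zpow_neg, ← inv_zpow] at h1
    have h2 : (bb⁻¹) ^ (2 : ℤ) = (bb⁻¹) ^ 2 := by norm_cast
    rw [h2] at h1
    rw [h1]
    norm_num
  have hbe : bb * bb⁻¹ ∈ Oi := by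
    rw [mul_inv_cancel₀ bb_ne]
    exact one_mem _
  have hint : ∀ a k n, C ((bb⁻¹) ^ (n + 1)) * su bb (PowerSeries.coeff n (s a k)) ∈
      BI (σ := Fin 3 × ℕ) Oi := by
    refine main QA _ _ (int1 QA _ _) (int2 QA _ _) Oi hal hbe
      (fun n => C ((bb⁻¹) ^ n) * su bb (PowerSeries.coeff n Φ)) ?_ ?_ hsys
      (fun a k n => C ((bb⁻¹) ^ (n + 1)) * su bb (PowerSeries.coeff n (s a k))) ?_
    · rw [hΦ0, map_one, pow_zero, C_1, one_mul]
    · intro a k n hn
      have h1 := hP.sup J a k n hn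
      unfold su
      rw [Int1M.dB_C_mul, dB_scal, dB_sc]
      change C (bb⁻¹ ^ n) * (C (bb⁻¹ ^ 2) * (C bb * sc (fun _ => bb)
        (dB RatFunc.X a k (PowerSeries.coeff n Φ)))) = 0
      rw [h1, map_zero, mul_zero, mul_zero, mul_zero]
    · refine psi_sc RatFunc.X bb_ne (fun n => PowerSeries.coeff n Φ)
        (fun a k n => PowerSeries.coeff n (s a k)) ?_
      intro a k n
      rw [← coeff_dP, ← hds, PowerSeries.coeff_mul]
  have hzero : ∀ k l, l < k → PowerSeries.coeff l (s 0 k) = 0 := by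
    intro k l hlk
    have h3 : ∀ m, m ≤ l → PowerSeries.coeff m (Φ * s 0 k) = PowerSeries.coeff m (Φ * 0) := by
      intro m hm
      rw [hds, coeff_dP, mul_zero, map_zero]
      exact hP.sup J 0 k m (by omega)
    have h4 := coeff_eq_of_mul hΦ0 h3 le_rfl
    rw [map_zero] at h4
    exact h4
  set psi' : PowerSeries (B3 QA) := PowerSeries.mk fun n =>
    ∑ k ∈ Finset.Icc 1 n, X (0, k) * PowerSeries.coeff n (s 0 k) with hpsi'
  have hmul : ∀ n, PowerSeries.coeff n (Φ * psi') =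
      C (RatFunc.X * (n : QA)) * PowerSeries.coeff n Φ := by
    intro n
    rw [← hP.eul J n, PowerSeries.coeff_mul]
    have e1 : ∀ x ∈ Finset.HasAntidiagonal.antidiagonal n,
        PowerSeries.coeff x.1 Φ * PowerSeries.coeff x.2 psi' =
          ∑ k ∈ Finset.Icc 1 n, X (0, k) *
            (PowerSeries.coeff x.1 Φ * PowerSeries.coeff x.2 (s 0 k)) := by
      intro x hx
      rw [Finset.HasAntidiagonal.mem_antidiagonal] at hx
      rw [hpsi', PowerSeries.coeff_mk, Finset.mul_sum]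
      have e2 : ∑ k ∈ Finset.Icc 1 x.2, X (0, k) *
            (PowerSeries.coeff x.1 Φ * PowerSeries.coeff x.2 (s 0 k)) =
          ∑ k ∈ Finset.Icc 1 n, X (0, k) *
            (PowerSeries.coeff x.1 Φ * PowerSeries.coeff x.2 (s 0 k)) := by
        refine Finset.sum_subset (Finset.Icc_subset_Icc le_rfl (by omega)) ?_
        intro k hk hk2
        rw [Finset.mem_Icc] at hk hk2
        rw [hzero k x.2 (by omega), mul_zero, mul_zero]
      rw [← e2]
      exact Finset.sum_congr rfl fun k _ => mul_left_comm _ _ _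
    rw [Finset.sum_congr rfl e1, Finset.sum_comm]
    refine Finset.sum_congr rfl fun k _ => ?_
    rw [← Finset.mul_sum, ← PowerSeries.coeff_mul, hds, coeff_dP]
  have heq : PowerSeries.coeff n psi = PowerSeries.coeff n psi' := by
    refine coeff_eq_of_mul hΦ0 (N := n) (fun l _ => ?_) le_rfl
    rw [hmul, mul_comm]
    exact hpsi l
  have hmem : C ((bb⁻¹) ^ (n + 2)) * su bb (PowerSeries.coeff n psi) ∈
      BI (σ := Fin 3 × ℕ) Oi := by
    rw [heq, hpsi', PowerSeries.coeff_mk, map_sum, Finset.mul_sum]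
    refine sum_mem fun k _ => ?_
    have e1 : C ((bb⁻¹) ^ (n + 2)) * su bb (X (0, k) * PowerSeries.coeff n (s 0 k)) =
        X (0, k) * (C ((bb⁻¹) ^ (n + 1)) * su bb (PowerSeries.coeff n (s 0 k))) := by
      have e2 : su bb (X (0, k) : B3 QA) = C bb * X (0, k) := sc_X _ _
      have e3 : (C ((bb⁻¹) ^ (n + 2)) : B3 QA) * C bb = C ((bb⁻¹) ^ (n + 1)) := by
        rw [← C_mul]
        congr 1
        have h4 : bb⁻¹ ^ (n + 2) * bb = bb⁻¹ ^ (n + 1) * (bb⁻¹ * bb) := by ring
        rw [h4, inv_mul_cancel₀ bb_ne, mul_one]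
      rw [map_mul, e2, ← e3]
      ring
    rw [e1]
    exact mul_mem (Int2M.X_mem _ _) (hint 0 k n)
  have h1 := hmem (expo3 t m v)
  rw [coeff_C_mul] at h1
  unfold su at h1
  rw [coeff_sc] at h1
  have h2 := expo3_prod (fun _ => bb) t m v
  beta_reduce at h2
  rw [h2] at h1
  have e1 : bb ^ (-((n : ℤ) + 2 - t.parts.card - m.parts.card - v.parts.card)) * hc psi t m v =
      bb⁻¹ ^ (n + 2) * (bb ^ t.parts.card * bb ^ m.parts.card * bb ^ v.parts.card *
        coeff (expo3 t m v) (PowerSeries.coeff n psi)) := by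
    have e2 : -((n : ℤ) + 2 - t.parts.card - m.parts.card - v.parts.card) =
        -((n + 2 : ℕ) : ℤ) + (t.parts.card : ℤ) + (m.parts.card : ℤ) + (v.parts.card : ℤ) := by
      push_cast
      ring
    rw [e2, zpow_add₀ bb_ne, zpow_add₀ bb_ne, zpow_add₀ bb_ne, zpow_neg, ← inv_zpow,
      zpow_natCast, zpow_natCast, zpow_natCast, zpow_natCast]
    unfold hc
    ring
  rw [e1]
  exact h1

end DegM

end

end Pool.Agent.MJD
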