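import Pool.Agent.MJD.Exp
import Pool.Agent.MJT.Jack

/-!
The duality `al ↦ 1 / al`.
-/

namespace Pool.Agent.MJD

open MvPolynomial Pool.Agent.MJR Pool.Agent.MJT
open InfM Pool.Agent.MJR.IdentM

noncomputable section

namespace DualM

theorem alg_eq (P : Polynomial ℚ) :
    algebraMap (Polynomial ℚ) QA P = P.eval₂ (algebraMap ℚ QA) RatFunc.X := by
  have h : P = P.eval₂ Polynomial.C Polynomial.X := Polynomial.eval₂_C_X.symm
  conv_lhs => rw [h]
  rw [Polynomial.hom_eval₂, RatFunc.algebraMap_X]
  congr 1
  exact Subsingleton.elim _ _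

/-- evaluation at `1 / al` -/
def ei : Polynomial ℚ →+* QA := Polynomial.eval₂RingHom (algebraMap ℚ QA) (RatFunc.X : QA)⁻¹

theorem inj_inv : Function.Injective ei := by
  have h0 : Function.Injective (Polynomial.aeval (R := ℚ) (RatFunc.X : QA)⁻¹) := by
    rw [← transcendental_iff_injective]
    intro h
    have h1 := h.inv
    rw [inv_inv] at h1
    obtain ⟨P, hP, hP'⟩ := h1
    apply hP
    apply RatFunc.algebraMap_injective ℚ
    rw [map_zero, ← hP']
    exact alg_eq P
  exact h0

/-- the automorphism `al ↦ 1 / al` -/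
def sg : QA →+* QA :=
  RatFunc.liftRingHom ei (nonZeroDivisors_le_comap_nonZeroDivisors_of_injective _ inj_inv)

theorem sg_alg (P : Polynomial ℚ) : sg (algebraMap (Polynomial ℚ) QA P) =
    P.eval₂ (algebraMap ℚ QA) (RatFunc.X : QA)⁻¹ :=
  RatFunc.liftRingHom_algebraMap _ _ _

theorem sg_X : sg RatFunc.X = (RatFunc.X)⁻¹ := by
  have h := sg_alg Polynomial.X
  rw [RatFunc.algebraMap_X, Polynomial.eval₂_X] at h
  exact h

theorem sg_rat (q : ℚ) : sg (algebraMap ℚ QA q) = algebraMap ℚ QA q := by
  rw [eq_ratCast, map_ratCast]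

/-- `-1 / al` -/
def ss : QA := -(RatFunc.X)⁻¹

theorem ss_ne : ss ≠ 0 := neg_ne_zero.2 (inv_ne_zero RatFunc.X_ne_zero)

/-- the twisted scaling of the power sums -/
def TL : Lam QA →+* Lam QA := eval₂Hom (C.comp sg) fun k => C ss * X k

theorem TL_C (c : QA) : TL (C c) = C (sg c) := eval₂_C _ _ _

theorem TL_X (k : ℕ) : TL (X k) = C ss * X k := eval₂_X _ _ _

theorem TL_smul (c : QA) (f : Lam QA) : TL (c • f) = sg c • TL f := by
  rw [smul_eq_C_mul, map_mul, TL_C, smul_eq_C_mul]

/-- the same with the extra variable -/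
def TW : LW QA →+* LW QA := Polynomial.mapRingHom TL

theorem TW_monomial (j : ℕ) (f : Lam QA) :
    TW (Polynomial.monomial j f) = Polynomial.monomial j (TL f) := by
  unfold TW
  rw [Polynomial.coe_mapRingHom, Polynomial.map_monomial]

theorem TW_C (f : Lam QA) : TW (Polynomial.C f) = Polynomial.C (TL f) := by
  rw [← Polynomial.monomial_zero_left, TW_monomial, Polynomial.monomial_zero_left]

theorem TW_X_pow (j : ℕ) : TW (Polynomial.X ^ j) = Polynomial.X ^ j := by
  unfold TW
  rw [Polynomial.coe_mapRingHom, Polynomial.map_pow, Polynomial.map_X]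

theorem smul_eq (c : QA) (F : LW QA) : c • F = Polynomial.C (C c) * F := by
  induction F using Polynomial.induction_on' with
  | add p q hp hq => rw [smul_add, hp, hq, mul_add]
  | monomial j g =>
    rw [Polynomial.smul_monomial, Polynomial.C_mul_monomial, smul_eq_C_mul]

theorem TW_smul (c : QA) (F : LW QA) : TW (c • F) = sg c • TW F := by
  rw [smul_eq, map_mul, TW_C, TL_C, smul_eq]

theorem U_T (f : Lam QA) : TW (U RatFunc.X f) = ss • U RatFunc.X (TL f) := by
  have hX : (RatFunc.X : QA) ≠ 0 := RatFunc.X_ne_zero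
  induction f using MvPolynomial.induction_on with
  | C r => rw [U_C, map_zero, TL_C, U_C, smul_zero]
  | add p q hp hq => rw [map_add, map_add, hp, hq, map_add, map_add, smul_add]
  | mul_X p k hp =>
    have h1 : TW (U RatFunc.X (X k)) = ss • U RatFunc.X (TL (X k)) := by
      rw [U_X, TW_monomial, TL_C, TL_X, ← smul_eq_C_mul, Derivation.map_smul, U_X, smul_smul,
        Polynomial.smul_monomial, smul_eq_C_mul, ← C_mul, map_mul, sg_X, map_natCast]
      congr 2
      unfold ss
      field_simp
    rw [U_mul, map_add, map_mul, map_mul, hp, h1, TW_C, TW_C, map_mul, U_mul, smul_add,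
      mul_smul_comm, mul_smul_comm]

theorem Z_T (F : LW QA) : TW (Z RatFunc.X F) = ss • Z RatFunc.X (TW F) := by
  have hX : (RatFunc.X : QA) ≠ 0 := RatFunc.X_ne_zero
  induction F using Polynomial.induction_on' with
  | add p q hp hq => rw [map_add, map_add, hp, hq, map_add, map_add, smul_add]
  | monomial j f =>
    rw [Z_monomial, TW_monomial, Z_monomial, map_add, map_add, TW_monomial, map_mul TW, TW_X_pow,
      U_T, map_sum, smul_add, smul_add, Finset.smul_sum, mul_smul_comm]
    congr 1
    · congr 1
      rw [map_mul TL, TL_C, Polynomial.smul_monomial, smul_eq_C_mul, ← mul_assoc, ← C_mul]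
      congr 3
      rw [map_mul, map_sub, map_one, map_natCast, sg_X]
      unfold ss
      field_simp
      ring
    · refine Finset.sum_congr rfl fun a _ => ?_
      rw [TW_monomial, map_mul TL, TL_X, Polynomial.smul_monomial, smul_eq_C_mul, mul_assoc]

theorem Tr_T (F : LW QA) : TL (Tr F) = ss • Tr (TW F) := by
  induction F using Polynomial.induction_on' with
  | add p q hp hq => rw [map_add, map_add, hp, hq, map_add, map_add, smul_add]
  | monomial j f =>
    rcases eq_or_ne j 0 with rfl | hj
    · rw [Polynomial.monomial_zero_left, Tr_C, TW_C, Tr_C, map_zero, smul_zero]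
    · rw [Tr_monomial j hj, TW_monomial, Tr_monomial j hj, map_mul, TL_X, smul_eq_C_mul, mul_assoc]

theorem sg_ss : sg ss = ss⁻¹ := by
  unfold ss
  rw [map_neg, map_inv₀, sg_X, inv_inv, ← inv_neg, inv_inv]

theorem Zpow_T (m : ℕ) (F : LW QA) :
    TW ((Z RatFunc.X ^ m) F) = ss ^ m • (Z RatFunc.X ^ m) (TW F) := by
  induction m generalizing F with
  | zero => rw [pow_zero, pow_zero, one_smul]; rfl
  | succ m ih =>
    rw [pow_succ, Module.End.mul_apply, ih, Z_T, map_smul, smul_smul, pow_succ,
      Module.End.mul_apply]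

theorem H_T (r : ℕ) (f : Lam QA) :
    TL (H RatFunc.X r f) = ss ^ (r + 2) • H RatFunc.X r (TL f) := by
  rw [H_apply, Tr_T, Zpow_T, TW_C, map_smul, smul_smul, H_apply]
  congr 1
  ring

theorem coeff_TL (e : ℕ →₀ ℕ) (f : Lam QA) :
    coeff e (TL f) = (e.prod fun _ n => ss ^ n) * sg (coeff e f) := by
  classical
  have h1 : ∀ (e' : ℕ →₀ ℕ) (r : QA), TL (monomial e' r) =
      monomial e' (sg r * e'.prod fun _ n => ss ^ n) := by
    intro e' r
    unfold TL
    rw [coe_eval₂Hom, eval₂_monomial]
    have h2 : (e'.prod fun k n => (C ss * X k : Lam QA) ^ n) =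
        C (e'.prod fun _ n => ss ^ n) * monomial e' 1 := by
      have h3 : (monomial e' (1 : QA) : Lam QA) = e'.prod fun s n => (X s : Lam QA) ^ n := by
        rw [monomial_eq, C_1, one_mul]
      rw [h3]
      simp only [mul_pow, Finsupp.prod, Finset.prod_mul_distrib, map_prod, map_pow]
    rw [h2]
    change (C (sg r) : Lam QA) * _ = _
    rw [← mul_assoc, ← C_mul, C_mul_monomial, mul_one]
  induction f using MvPolynomial.induction_on' with
  | monomial e' r =>
    rw [h1, coeff_monomial, coeff_monomial]
    split_ifs with h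
    · rw [h, mul_comm]
    · rw [map_zero, mul_zero]
  | add p q hp hq => rw [map_add, coeff_add, coeff_add, hp, hq, map_add, mul_add]

theorem expo_prod {n : ℕ} (q : n.Partition) :
    ((expo q).prod fun _ n => ss ^ n) = ss ^ q.parts.card := by
  classical
  have h1 : ∀ s : Multiset ℕ, ((Multiset.toFinsupp s).prod fun _ n => ss ^ n) =
      (s.map fun _ => ss).prod := by
    intro s
    rw [Finset.prod_multiset_map_count]
    unfold Finsupp.prod
    rw [Multiset.toFinsupp_support]
    refine Finset.prod_congr rfl fun x _ => ?_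
    rw [Multiset.toFinsupp_apply]
  unfold expo
  rw [h1, Multiset.map_const', Multiset.prod_replicate]

theorem coeff_TL_expo {n : ℕ} (q : n.Partition) (f : Lam QA) :
    coeff (expo q) (TL f) = ss ^ q.parts.card * sg (coeff (expo q) f) := by
  rw [coeff_TL, expo_prod]

theorem TL_pp {n : ℕ} (p : n.Partition) : TL (pp QA p) = ss ^ p.parts.card • pp QA p := by
  rw [pp_eq_monomial]
  have h := coeff_TL
  ext e
  rw [coeff_TL, coeff_smul, coeff_monomial]
  split_ifs with h1
  · rw [← h1, expo_prod, map_one, smul_eq_mul]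
  · rw [map_zero, mul_zero, smul_zero]

/-- the matrix of `H` -/
def hm (r : ℕ) {n : ℕ} (p q : n.Partition) : QA := coeff (expo q) (H RatFunc.X r (pp QA p))

theorem hm_dual (r : ℕ) {n : ℕ} (p q : n.Partition) :
    ss ^ q.parts.card * sg (hm r p q) = ss ^ (r + 2) * (ss ^ p.parts.card * hm r p q) := by
  unfold hm
  rw [← coeff_TL_expo, H_T, TL_pp, map_smul, coeff_smul, coeff_smul, smul_eq_mul, smul_eq_mul]

theorem comm_c {n : ℕ} {J : n.Partition → n.Partition → QA} (hJ : IsJack RatFunc.X n J)
    (c : n.Partition → n.Partition → n.Partition → QA)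
    (hc : ∀ l m v, ∑ p, J l p * c p m v = J l m * J l v) (v : n.Partition) (r : ℕ)
    (p q : n.Partition) :
    ∑ s, c p s v * hm r s q = ∑ s, hm r p s * c s q v := by
  classical
  have hJI := fin_ident.2
  have h1 : (fun p => ∑ s, c p s v * hm r s q) = fun p => ∑ s, hm r p s * c s q v := by
    apply CFin.c_eq hJI hJ
    intro l
    obtain ⟨k, hk⟩ := J_eig hJ r l
    have e1 : ∀ q, ∑ s, J l s * hm r s q = k * J l q := by
      intro q
      unfold hm
      rw [← apply_toL, hk, coeff_C_mul, coeff_toL]
    have e2 : ∑ p, J l p * ∑ s, c p s v * hm r s q =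
        ∑ s, (∑ p, J l p * c p s v) * hm r s q := by
      simp only [Finset.mul_sum, Finset.sum_mul]
      rw [Finset.sum_comm]
      refine Finset.sum_congr rfl fun s _ => Finset.sum_congr rfl fun p _ => ?_
      ring
    have e3 : ∑ p, J l p * ∑ s, hm r p s * c s q v =
        ∑ s, (∑ p, J l p * hm r p s) * c s q v := by
      simp only [Finset.mul_sum, Finset.sum_mul]
      rw [Finset.sum_comm]
      refine Finset.sum_congr rfl fun s _ => Finset.sum_congr rfl fun p _ => ?_
      ring
    rw [e2, e3]
    have e4 : ∑ s, (∑ p, J l p * c p s v) * hm r s q = J l v * ∑ s, J l s * hm r s q := by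
      rw [Finset.mul_sum]
      refine Finset.sum_congr rfl fun s _ => ?_
      rw [hc l s v]
      ring
    have e5 : ∑ s, (∑ p, J l p * hm r p s) * c s q v = k * ∑ s, J l s * c s q v := by
      rw [Finset.mul_sum]
      refine Finset.sum_congr rfl fun s _ => ?_
      rw [e1 s]
      ring
    rw [e4, e5, e1, hc l q v]
    ring
  exact congrFun h1 p

/-- The duality of the coefficients `c`. -/
theorem c_dual {n : ℕ} {J : n.Partition → n.Partition → QA} (hJ : IsJack RatFunc.X n J)
    (c : n.Partition → n.Partition → n.Partition → QA)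
    (hc : ∀ l m v, ∑ p, J l p * c p m v = J l m * J l v) (p m v : n.Partition) :
    (-(RatFunc.X : QA)) ^ (n + p.parts.card) * sg (c p m v) =
      (-(RatFunc.X : QA)) ^ (m.parts.card + v.parts.card) * c p m v := by
  classical
  have hs : ∀ k : ℕ, (-(RatFunc.X : QA)) ^ k * ss ^ k = 1 := by
    intro k
    rw [← mul_pow]
    unfold ss
    rw [neg_mul_neg, mul_inv_cancel₀ RatFunc.X_ne_zero, one_pow]
  set y : QA := -(RatFunc.X : QA) with hy
  have hcol : ∀ p : n.Partition, c p (ones n) v = if p = v then 1 else 0 := by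
    intro p
    have h1 : (fun p => c p (ones n) v) = fun p => if p = v then 1 else 0 := by
      apply CFin.c_eq fin_ident.2 hJ
      intro l
      rw [hc l (ones n) v, J_ones hJ, one_mul]
      simp
    exact congrFun h1 p
  have hO := jackMat hJ c hc
    (fun p m => y ^ p.parts.card * ss ^ m.parts.card * sg (c p m v)) (by
      intro r p q
      have e0 := congrArg sg (comm_c hJ c hc v r p q)
      rw [map_sum, map_sum] at e0
      have h1 : ∀ s : n.Partition, y ^ p.parts.card * ss ^ s.parts.card * sg (c p s v) *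
          coeff (expo q) (H RatFunc.X r (pp QA s)) =
          y ^ (r + 2) * y ^ p.parts.card * ss ^ q.parts.card *
            sg (c p s v * hm r s q) := by
        intro s
        have h2 := hm_dual r s q
        rw [map_mul]
        change _ * hm r s q = _
        calc y ^ p.parts.card * ss ^ s.parts.card * sg (c p s v) * hm r s q
            = (y ^ (r + 2) * ss ^ (r + 2)) * (y ^ p.parts.card * ss ^ s.parts.card *
                sg (c p s v) * hm r s q) := by rw [hs, one_mul]
          _ = y ^ (r + 2) * y ^ p.parts.card * sg (c p s v) *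
                (ss ^ (r + 2) * (ss ^ s.parts.card * hm r s q)) := by ring
          _ = _ := by
            rw [← h2]
            ring
      have h3 : ∀ s : n.Partition, coeff (expo s) (H RatFunc.X r (pp QA p)) *
          (y ^ s.parts.card * ss ^ q.parts.card * sg (c s q v)) =
          y ^ (r + 2) * y ^ p.parts.card * ss ^ q.parts.card *
            sg (hm r p s * c s q v) := by
        intro s
        have h2 := hm_dual r p s
        rw [map_mul]
        change hm r p s * _ = _
        calc hm r p s * (y ^ s.parts.card * ss ^ q.parts.card * sg (c s q v))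
            = (y ^ (r + 2) * ss ^ (r + 2)) * (y ^ p.parts.card * ss ^ p.parts.card) *
                (hm r p s * (y ^ s.parts.card * ss ^ q.parts.card * sg (c s q v))) := by
              rw [hs, hs, one_mul, one_mul]
          _ = y ^ (r + 2) * y ^ p.parts.card * ss ^ q.parts.card * sg (c s q v) *
                (y ^ s.parts.card * (ss ^ (r + 2) * (ss ^ p.parts.card * hm r p s))) := by ring
          _ = y ^ (r + 2) * y ^ p.parts.card * ss ^ q.parts.card * sg (c s q v) *
                ((y ^ s.parts.card * ss ^ s.parts.card) * sg (hm r p s)) := by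
              rw [← h2]
              ring
          _ = _ := by
            rw [hs, one_mul]
            ring
      rw [Finset.sum_congr rfl fun s _ => h1 s, Finset.sum_congr rfl fun s _ => h3 s,
        ← Finset.mul_sum, ← Finset.mul_sum, e0]) p m
  have h4 : ∀ v' : n.Partition, y ^ v'.parts.card * ss ^ (ones n).parts.card *
      sg (c v' (ones n) v) * c p m v' =
      if v' = v then y ^ v.parts.card * ss ^ n * c p m v else 0 := by
    intro v'
    rw [hcol]
    have h5 : (ones n).parts.card = n := by
      unfold ones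
      exact Multiset.card_replicate n 1
    split_ifs with h
    · rw [h, h5, map_one, mul_one]
    · rw [map_zero, mul_zero, zero_mul]
  rw [Finset.sum_congr rfl fun v' _ => h4 v', Finset.sum_ite_eq' Finset.univ v, if_pos
    (Finset.mem_univ _)] at hO
  calc y ^ (n + p.parts.card) * sg (c p m v)
      = (y ^ m.parts.card * ss ^ m.parts.card) * (y ^ (n + p.parts.card) * sg (c p m v)) := by
        rw [hs, one_mul]
    _ = y ^ n * y ^ m.parts.card * (y ^ p.parts.card * ss ^ m.parts.card * sg (c p m v)) := by
      ring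
    _ = y ^ n * y ^ m.parts.card * (y ^ v.parts.card * ss ^ n * c p m v) := by rw [hO]
    _ = (y ^ n * ss ^ n) * (y ^ (m.parts.card + v.parts.card) * c p m v) := by ring
    _ = _ := by rw [hs, one_mul]

/-- Symmetric polynomials of low degree. -/
theorem low_id (P : Polynomial ℚ) (n : ℕ) (h0 : ∀ i, n < i → P.coeff i = 0)
    (hs : evb P = (-(RatFunc.X : QA)) ^ n * sg (evb P)) (x : ℚ) :
    ∑ i ∈ Finset.range (n + 1), P.coeff i * (x - 1) ^ i =
      ∑ i ∈ Finset.range (n + 1), (-1) ^ n * (P.coeff i * (x ^ (n - i) * (1 - x) ^ i)) := by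
  have hX : (RatFunc.X : QA) ≠ 0 := RatFunc.X_ne_zero
  have hd : P.natDegree < n + 1 := by
    by_contra h
    have h1 := h0 P.natDegree (by omega)
    have h2 := Polynomial.leadingCoeff_eq_zero.1 h1
    rw [h2, Polynomial.natDegree_zero] at h
    omega
  have e1 : evb P = ∑ i ∈ Finset.range (n + 1), algebraMap ℚ QA (P.coeff i) * bb ^ i := by
    unfold evb
    rw [Polynomial.eval₂_eq_sum_range' _ hd]
  have e2 : algebraMap (Polynomial ℚ) QA (∑ i ∈ Finset.range (n + 1),
      Polynomial.C (P.coeff i) * (Polynomial.X - 1) ^ i) = evb P := by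
    rw [e1, map_sum]
    refine Finset.sum_congr rfl fun i _ => ?_
    rw [map_mul, map_pow, map_sub, map_one, RatFunc.algebraMap_X, alg_eq, Polynomial.eval₂_C]
    rfl
  have e3 : algebraMap (Polynomial ℚ) QA (∑ i ∈ Finset.range (n + 1),
      (-1) ^ n * (Polynomial.C (P.coeff i) * (Polynomial.X ^ (n - i) *
        (1 - Polynomial.X) ^ i))) = (-(RatFunc.X : QA)) ^ n * sg (evb P) := by
    rw [e1, map_sum, map_sum, Finset.mul_sum]
    refine Finset.sum_congr rfl fun i hi => ?_
    rw [Finset.mem_range] at hi
    rw [map_mul, map_mul, map_mul, map_mul, map_pow, map_pow, map_pow, map_neg, map_one, map_sub,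
      map_one, RatFunc.algebraMap_X, sg_rat, map_pow]
    have e4 : sg bb = (1 - RatFunc.X) * (RatFunc.X)⁻¹ := by
      unfold bb
      rw [map_sub, sg_X, map_one, sub_mul, one_mul, mul_inv_cancel₀ hX]
    have e5 : (-(RatFunc.X : QA)) ^ n = (-1) ^ n * (RatFunc.X ^ (n - i) * RatFunc.X ^ i) := by
      rw [← pow_add, Nat.sub_add_cancel (by omega), ← neg_one_mul, mul_pow]
    have e6 : (RatFunc.X : QA) ^ i * ((RatFunc.X)⁻¹) ^ i = 1 := by
      rw [← mul_pow, mul_inv_cancel₀ hX, one_pow]
    rw [e4, e5, mul_pow]
    have e7 : algebraMap (Polynomial ℚ) QA (Polynomial.C (P.coeff i)) =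
        algebraMap ℚ QA (P.coeff i) := by
      rw [alg_eq, Polynomial.eval₂_C]
    rw [e7]
    calc (-1 : QA) ^ n * (algebraMap ℚ QA (P.coeff i) * (RatFunc.X ^ (n - i) *
          (1 - RatFunc.X) ^ i))
        = (-1) ^ n * (algebraMap ℚ QA (P.coeff i) * (RatFunc.X ^ (n - i) *
          (1 - RatFunc.X) ^ i)) * (RatFunc.X ^ i * ((RatFunc.X)⁻¹) ^ i) := by rw [e6, mul_one]
      _ = _ := by ring
  have e8 := RatFunc.algebraMap_injective ℚ (e2.trans (hs.trans e3.symm))
  have e9 := congrArg (Polynomial.eval x) e8
  rw [Polynomial.eval_finsetSum, Polynomial.eval_finsetSum] at e9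
  simp only [Polynomial.eval_mul, Polynomial.eval_pow, Polynomial.eval_sub, Polynomial.eval_C,
    Polynomial.eval_X, Polynomial.eval_one, Polynomial.eval_neg] at e9
  exact e9

/-- Symmetric polynomials of degree at most three. -/
theorem low (P : Polynomial ℚ) (n : ℕ) (hn : n ≤ 3) (h0 : ∀ i, n < i → P.coeff i = 0)
    (hs : evb P = (-(RatFunc.X : QA)) ^ n * sg (evb P)) (h2 : ∀ i, n ≤ i + 1 → 0 ≤ P.coeff i)
    (i : ℕ) : 0 ≤ P.coeff i := by
  by_cases hi : n ≤ i + 1
  · exact h2 i hi
  have h3 := low_id P n h0 hs 1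
  have h4 := low_id P n h0 hs 2
  have h5 : n = 2 ∨ n = 3 := by omega
  rcases h5 with rfl | rfl
  · have h6 : i = 0 := by omega
    rw [h6]
    have h7 := h2 1 (by omega)
    simp only [Finset.sum_range_succ, Finset.sum_range_zero] at h4
    norm_num at h4
    linarith
  · simp only [Finset.sum_range_succ, Finset.sum_range_zero] at h3 h4
    norm_num at h3 h4
    have h7 := h2 2 (by omega)
    have h6 : i = 0 ∨ i = 1 := by omega
    rcases h6 with rfl | rfl <;> linarith

end DualM

end

end Pool.Agent.MJD
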