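import Pool.Agent.MJD.Top
import Pool.Agent.MJR.PhiM

/-!
From the coefficients `h` to the coefficients `c`.
-/

namespace Pool.Agent.MJD

open MvPolynomial Pool.Agent.MJR Pool.Agent.MJR.GradeM Pool.Agent.MJT
open InfM ScalM TopM

noncomputable section

namespace ExpM

/-- polynomials with coefficients in `P` -/
def BP (P : Subsemiring QA) : Subsemiring (B3 QA) where
  carrier := {f | ∀ e, coeff e f ∈ P}
  mul_mem' := by
    classical
    intro f g hf hg m
    rw [coeff_mul]
    exact sum_mem fun x _ => mul_mem (hf _) (hg _)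
  one_mem' := by
    classical
    intro m
    rw [coeff_one]
    split_ifs
    · exact one_mem _
    · exact zero_mem _
  add_mem' := by
    intro f g hf hg m
    rw [coeff_add]
    exact add_mem (hf _) (hg _)
  zero_mem' := by
    intro m
    rw [coeff_zero]
    exact zero_mem _

theorem H3_coeff {K : Type} [Field K] {n : ℕ} {f : B3 K} (hf : f ∈ MJL.H3 K n)
    (e : Fin 3 × ℕ →₀ ℕ) (he : ∀ t m v : n.Partition, e ≠ expo3 t m v) : coeff e f = 0 := by
  classical
  unfold MJL.H3 at hf
  induction hf using Submodule.span_induction with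
  | mem f hf =>
    obtain ⟨⟨t, m', v⟩, rfl⟩ := hf
    change coeff e (pa 0 t * pa 1 m' * pa 2 v) = 0
    rw [MJL.Hom.gen_eq, coeff_monomial, if_neg fun h => he t m' v h.symm]
  | zero => simp
  | add f g _ _ hf hg => rw [coeff_add, hf, hg, add_zero]
  | smul c f _ hf => rw [coeff_smul, hf, smul_zero]

variable {J : (n : ℕ) → n.Partition → n.Partition → QA} {psi : PowerSeries (B3 QA)}

/-- From the logarithm to the series. -/
theorem exp_mem (hJ : ∀ n, IsJack RatFunc.X n (J n)) (hpsi : IsPsi RatFunc.X J psi)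
    (P : Subsemiring QA) (hinv : ∀ n : ℕ, ((n : QA)⁻¹) ∈ P) (c : Fin 3 → QA) (r : QA)
    (hp : ∀ n, n ≠ 0 → ∀ t m v : n.Partition, (RatFunc.X : QA)⁻¹ * (r ^ n *
      (c 0 ^ t.parts.card * c 1 ^ m.parts.card * c 2 ^ v.parts.card)) * hc psi t m v ∈ P)
    {n : ℕ} (t m v : n.Partition) :
    r ^ n * (c 0 ^ t.parts.card * c 1 ^ m.parts.card * c 2 ^ v.parts.card) *
      coeff (expo3 t m v) (PowerSeries.coeff n (phi RatFunc.X J)) ∈ P := by
  classical
  have hc0 : PowerSeries.constantCoeff (phi RatFunc.X J) = 1 := by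
    rw [← PowerSeries.coeff_zero_eq_constantCoeff_apply]
    exact ExtrM.phi_zero J hJ
  have hpe := (MJL.lgm QA).psi RatFunc.X J psi hc0 hpsi
  have hH3 : ∀ n, PowerSeries.coeff n psi ∈ MJL.H3 QA n := by
    intro n
    rw [hpe]
    exact (MJL.homm QA).log _ _ hc0 ((MJL.homm QA).phi _ _) n
  have hpsi0 : PowerSeries.coeff 0 psi = 0 := by
    rw [hpe]
    exact (MJL.lgm QA).zero _ _ hc0
  set f : ℕ → B3 QA := fun n => C (r ^ n) * sc c (PowerSeries.coeff n (phi RatFunc.X J)) with hf
  set g : ℕ → B3 QA := fun n => C ((RatFunc.X : QA)⁻¹ * r ^ n) * sc c (PowerSeries.coeff n psi)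
    with hg
  have hgm : ∀ n, g n ∈ BP P := by
    intro n e
    rw [hg]
    beta_reduce
    rw [coeff_C_mul, coeff_sc]
    rcases eq_or_ne n 0 with rfl | hn
    · rw [hpsi0, coeff_zero, mul_zero, mul_zero]
      exact zero_mem _
    by_cases he : ∃ t m v : n.Partition, e = expo3 t m v
    · obtain ⟨t, m, v, rfl⟩ := he
      rw [DegM.expo3_prod]
      have h1 := hp n hn t m v
      have e1 : (RatFunc.X : QA)⁻¹ * r ^ n * (c 0 ^ t.parts.card * c 1 ^ m.parts.card *
          c 2 ^ v.parts.card * coeff (expo3 t m v) (PowerSeries.coeff n psi)) =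
          (RatFunc.X : QA)⁻¹ * (r ^ n * (c 0 ^ t.parts.card * c 1 ^ m.parts.card *
            c 2 ^ v.parts.card)) * hc psi t m v := by
        unfold hc
        ring
      rw [e1]
      exact h1
    · push Not at he
      rw [H3_coeff (hH3 n) e he, mul_zero, mul_zero]
      exact zero_mem _
  have hfm : ∀ n, f n ∈ BP P := by
    intro n
    induction n using Nat.strong_induction_on with
    | _ n ih =>
      rcases eq_or_ne n 0 with rfl | hn
      · have h1 : f 0 = 1 := by
          rw [hf]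
          beta_reduce
          rw [ExtrM.phi_zero J hJ, map_one, pow_zero, C_1, one_mul]
        rw [h1]
        exact one_mem _
      · have h1 := hpsi n
        have hX : (RatFunc.X : QA) ≠ 0 := RatFunc.X_ne_zero
        have hn' : (n : QA) ≠ 0 := Nat.cast_ne_zero.2 hn
        rw [PowerSeries.coeff_mul] at h1
        have h2 : f n = C ((n : QA)⁻¹) * ∑ x ∈ Finset.HasAntidiagonal.antidiagonal n,
            g x.1 * f x.2 := by
          have e1 : ∀ x ∈ Finset.HasAntidiagonal.antidiagonal n, g x.1 * f x.2 =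
              C ((RatFunc.X : QA)⁻¹ * r ^ n) * sc c (PowerSeries.coeff x.1 psi *
                PowerSeries.coeff x.2 (phi RatFunc.X J)) := by
            intro x hx
            rw [Finset.HasAntidiagonal.mem_antidiagonal] at hx
            have h3 : (C ((RatFunc.X : QA)⁻¹ * r ^ n) : B3 QA) =
                C ((RatFunc.X : QA)⁻¹ * r ^ x.1) * C (r ^ x.2) := by
              rw [← C_mul, mul_assoc, ← pow_add, hx]
            rw [hf, hg, map_mul (sc c), h3]
            ring
          rw [Finset.sum_congr rfl e1, ← Finset.mul_sum, ← map_sum, h1, map_mul (sc c), sc_C,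
            ← mul_assoc, ← mul_assoc, ← C_mul, ← C_mul]
          rw [hf]
          beta_reduce
          congr 2
          field_simp
        rw [h2]
        have hC : (C ((n : QA)⁻¹) : B3 QA) ∈ BP P := by
          intro e
          rw [coeff_C]
          split_ifs
          · exact hinv n
          · exact zero_mem _
        refine mul_mem hC (sum_mem fun x hx => ?_)
        rw [Finset.HasAntidiagonal.mem_antidiagonal] at hx
        by_cases hx1 : x.1 = 0
        · have h3 : g 0 = 0 := by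
            rw [hg]
            beta_reduce
            rw [hpsi0, map_zero, mul_zero]
          rw [hx1, h3, zero_mul]
          exact zero_mem _
        · exact mul_mem (hgm _) (ih _ (by omega))
  have h1 := hfm n (expo3 t m v)
  rw [hf] at h1
  beta_reduce at h1
  rw [coeff_C_mul, coeff_sc, DegM.expo3_prod, ← mul_assoc] at h1
  exact h1

/-- The coefficients `c`. -/
theorem cc_eq (hJ : ∀ n, IsJack RatFunc.X n (J n)) {n : ℕ} (p m v : n.Partition) :
    MJI.cc RatFunc.X (J n) p m v = wtp RatFunc.X p *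
      coeff (expo3 p m v) (PowerSeries.coeff n (phi RatFunc.X J)) := by
  rw [coeff_phi]
  rfl

theorem cc_sum {n : ℕ} {J : n.Partition → n.Partition → QA} (hJ : IsJack RatFunc.X n J)
    (l m v : n.Partition) :
    ∑ p, J l p * MJI.cc RatFunc.X J p m v = J l m * J l v := by
  classical
  have h1 : ∀ l', ∑ p, J l p * J l' p * wtp (RatFunc.X : QA) p =
      if l' = l then nrm RatFunc.X J l else 0 := by
    intro l'
    split_ifs with h
    · rw [h]
      unfold nrm
      exact Finset.sum_congr rfl fun p _ => by ring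
    · exact hJ.orth l l' (Ne.symm h)
  have h2 : ∑ p, J l p * MJI.cc RatFunc.X J p m v =
      ∑ l', (nrm RatFunc.X J l')⁻¹ * (J l' m * J l' v) *
        ∑ p, J l p * J l' p * wtp (RatFunc.X : QA) p := by
    unfold MJI.cc
    simp only [Finset.mul_sum]
    rw [Finset.sum_comm]
    refine Finset.sum_congr rfl fun l' _ => Finset.sum_congr rfl fun p _ => ?_
    ring
  rw [h2, Finset.sum_congr rfl fun l' _ => by rw [h1 l']]
  simp only [mul_ite, mul_zero, Finset.sum_ite_eq', Finset.mem_univ, if_true]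
  have h3 := nrm_ne_zero anisoM hJ l
  field_simp

/-- the exponent of the degree of `c` -/
def dd {n : ℕ} (p m v : n.Partition) : ℤ :=
  (n : ℤ) + p.parts.card - m.parts.card - v.parts.card

theorem zed_mem (P : Subsemiring QA) {n : ℕ} (r : n.Partition) : ((zed r : ℕ) : QA) ∈ P :=
  natCast_mem P _

/-- The two leading coefficients of `c`. -/
theorem cc_mem (hJ : ∀ n, IsJack RatFunc.X n (J n)) (hpsi : IsPsi RatFunc.X J psi) {n : ℕ}
    (p m v : n.Partition) :
    bb ^ (-dd p m v) * MJI.cc RatFunc.X (J n) p m v ∈ Pk 2 := by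
  have hX : (RatFunc.X : QA) ≠ 0 := RatFunc.X_ne_zero
  have h1 := exp_mem hJ hpsi (Pk 2) (fun n => inv_mem 2 n) ![RatFunc.X * ep, bb, bb] ep (by
    intro n hn t m v
    have ht : t.parts.card ≠ 0 := by
      intro h0
      rw [Multiset.card_eq_zero] at h0
      have hs := t.parts_sum
      rw [h0, Multiset.sum_zero] at hs
      exact hn hs.symm
    have h2 := eta_mem hJ hpsi t m v ht
    obtain ⟨a, ha⟩ := Nat.exists_eq_succ_of_ne_zero ht
    have e1 : (RatFunc.X : QA)⁻¹ * (ep ^ n * ((![RatFunc.X * ep, bb, bb] : Fin 3 → QA) 0 ^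
        t.parts.card * (![RatFunc.X * ep, bb, bb] : Fin 3 → QA) 1 ^ m.parts.card *
        (![RatFunc.X * ep, bb, bb] : Fin 3 → QA) 2 ^ v.parts.card)) * hc psi t m v =
        (RatFunc.X * ep ^ 2) ^ (t.parts.card - 1) * (bb ^ (-gg t m v) * hc psi t m v) := by
      have e2 : bb ^ (-gg t m v) = ep ^ (n + 2) * (bb ^ t.parts.card * bb ^ m.parts.card *
          bb ^ v.parts.card) := by
        have e3 : -gg t m v = -((n + 2 : ℕ) : ℤ) + (t.parts.card : ℤ) + (m.parts.card : ℤ) +
            (v.parts.card : ℤ) := by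
          unfold gg
          push_cast
          ring
        rw [e3, zpow_add₀ bb_ne, zpow_add₀ bb_ne, zpow_add₀ bb_ne, zpow_neg, ← inv_zpow,
          zpow_natCast, zpow_natCast, zpow_natCast, zpow_natCast]
        unfold ep
        ring
      rw [e2, ha]
      simp only [Nat.succ_eq_add_one, Nat.add_sub_cancel]
      change (RatFunc.X : QA)⁻¹ * (ep ^ n * ((RatFunc.X * ep) ^ (a + 1) * bb ^ m.parts.card *
        bb ^ v.parts.card)) * hc psi t m v = _
      have e4 : ep ^ (a + 1) * bb ^ (a + 1) = 1 := by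
        rw [← mul_pow]
        unfold ep
        rw [inv_mul_cancel₀ bb_ne, one_pow]
      calc (RatFunc.X : QA)⁻¹ * (ep ^ n * ((RatFunc.X * ep) ^ (a + 1) * bb ^ m.parts.card *
            bb ^ v.parts.card)) * hc psi t m v
          = (RatFunc.X⁻¹ * RatFunc.X) * (RatFunc.X ^ a * ep ^ (n + a + 1) *
            (bb ^ m.parts.card * bb ^ v.parts.card) * hc psi t m v) := by ring
        _ = RatFunc.X ^ a * ep ^ (n + a + 1) * (bb ^ m.parts.card * bb ^ v.parts.card) *
            hc psi t m v * (ep ^ (a + 1) * bb ^ (a + 1)) := by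
            rw [inv_mul_cancel₀ hX, e4]
            ring
        _ = _ := by ring
    rw [e1]
    exact h2) p m v
  have h3 := mul_mem (zed_mem (Pk 2) p) h1
  have e1 : ((zed p : ℕ) : QA) * (ep ^ n * ((![RatFunc.X * ep, bb, bb] : Fin 3 → QA) 0 ^
      p.parts.card * (![RatFunc.X * ep, bb, bb] : Fin 3 → QA) 1 ^ m.parts.card *
      (![RatFunc.X * ep, bb, bb] : Fin 3 → QA) 2 ^ v.parts.card) *
      coeff (expo3 p m v) (PowerSeries.coeff n (phi RatFunc.X J))) =
      bb ^ (-dd p m v) * MJI.cc RatFunc.X (J n) p m v := by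
    rw [cc_eq hJ]
    have e3 : -dd p m v = -((n + p.parts.card : ℕ) : ℤ) + (m.parts.card : ℤ) +
        (v.parts.card : ℤ) := by
      unfold dd
      push_cast
      ring
    rw [e3, zpow_add₀ bb_ne, zpow_add₀ bb_ne, zpow_neg, ← inv_zpow,
      zpow_natCast, zpow_natCast, zpow_natCast]
    change ((zed p : ℕ) : QA) * (ep ^ n * ((RatFunc.X * ep) ^ p.parts.card * bb ^ m.parts.card *
        bb ^ v.parts.card) * coeff (expo3 p m v) (PowerSeries.coeff n (phi RatFunc.X J))) = _
    unfold wtp ep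
    ring
  rw [e1] at h3
  exact h3

/-- `ℚ[b]` -/
def Qpol : Subsemiring QA :=
  (Polynomial.eval₂RingHom (algebraMap ℚ QA) bb).rangeS

theorem mem_Qpol {f : QA} : f ∈ Qpol ↔ ∃ P : Polynomial ℚ, evb P = f := Iff.rfl

theorem X_mem_Qpol : (RatFunc.X : QA) ∈ Qpol := by
  refine ⟨Polynomial.X + 1, ?_⟩
  rw [map_add, map_one]
  change Polynomial.eval₂ (algebraMap ℚ QA) bb Polynomial.X + 1 = RatFunc.X
  rw [Polynomial.eval₂_X]
  unfold bb
  ring

theorem hc_Qpol (hJ : ∀ n, IsJack RatFunc.X n (J n)) (hpsi : IsPsi RatFunc.X J psi) {n : ℕ}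
    (t m v : n.Partition) : hc psi t m v ∈ Qpol := by
  obtain ⟨P, hP⟩ := MJI.fin (MJI.mainSt QA RatFunc.X) MJI.sysSt (MJI.per QA RatFunc.X) MJI.phim
    J hJ psi hpsi t m v
  refine ⟨P.map (Int.castRingHom ℚ), ?_⟩
  rw [← hP, Polynomial.coe_eval₂RingHom, Polynomial.coe_eval₂RingHom, Polynomial.eval₂_map]
  unfold bb
  congr 1
  exact RingHom.ext fun k => by simp

/-- The coefficients `c` are polynomials. -/
theorem cc_Qpol (hJ : ∀ n, IsJack RatFunc.X n (J n)) (hpsi : IsPsi RatFunc.X J psi) {n : ℕ}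
    (p m v : n.Partition) : MJI.cc RatFunc.X (J n) p m v ∈ Qpol := by
  have hX : (RatFunc.X : QA) ≠ 0 := RatFunc.X_ne_zero
  have hinv : ∀ n : ℕ, ((n : QA)⁻¹) ∈ Qpol := by
    intro n
    refine ⟨Polynomial.C ((n : ℚ)⁻¹), ?_⟩
    rw [Polynomial.coe_eval₂RingHom, Polynomial.eval₂_C, map_inv₀, map_natCast]
  have h1 := exp_mem hJ hpsi Qpol hinv ![RatFunc.X, 1, 1] 1 (by
    intro n hn t m v
    have ht : t.parts.card ≠ 0 := by
      intro h0
      rw [Multiset.card_eq_zero] at h0
      have hs := t.parts_sum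
      rw [h0, Multiset.sum_zero] at hs
      exact hn hs.symm
    obtain ⟨a, ha⟩ := Nat.exists_eq_succ_of_ne_zero ht
    rw [ha]
    change (RatFunc.X : QA)⁻¹ * (1 ^ n * (RatFunc.X ^ (a + 1) * 1 ^ m.parts.card *
      1 ^ v.parts.card)) * hc psi t m v ∈ Qpol
    have e1 : (RatFunc.X : QA)⁻¹ * (1 ^ n * (RatFunc.X ^ (a + 1) * 1 ^ m.parts.card *
        1 ^ v.parts.card)) * hc psi t m v = RatFunc.X ^ a * hc psi t m v := by
      calc (RatFunc.X : QA)⁻¹ * (1 ^ n * (RatFunc.X ^ (a + 1) * 1 ^ m.parts.card *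
            1 ^ v.parts.card)) * hc psi t m v
          = (RatFunc.X⁻¹ * RatFunc.X) * (RatFunc.X ^ a * hc psi t m v) := by
            rw [one_pow, one_pow, one_pow]
            ring
        _ = _ := by rw [inv_mul_cancel₀ hX, one_mul]
    rw [e1]
    exact mul_mem (pow_mem X_mem_Qpol _) (hc_Qpol hJ hpsi t m v)) p m v
  have h3 := mul_mem (zed_mem Qpol p) h1
  have e1 : ((zed p : ℕ) : QA) * (1 ^ n * ((![RatFunc.X, 1, 1] : Fin 3 → QA) 0 ^
      p.parts.card * (![RatFunc.X, 1, 1] : Fin 3 → QA) 1 ^ m.parts.card *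
      (![RatFunc.X, 1, 1] : Fin 3 → QA) 2 ^ v.parts.card) *
      coeff (expo3 p m v) (PowerSeries.coeff n (phi RatFunc.X J))) =
      MJI.cc RatFunc.X (J n) p m v := by
    rw [cc_eq hJ]
    change ((zed p : ℕ) : QA) * (1 ^ n * (RatFunc.X ^ p.parts.card * 1 ^ m.parts.card *
        1 ^ v.parts.card) * coeff (expo3 p m v) (PowerSeries.coeff n (phi RatFunc.X J))) = _
    unfold wtp
    rw [one_pow, one_pow, one_pow]
    ring
  rw [e1] at h3
  exact h3

end ExpM

end

end Pool.Agent.MJD
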