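import Pool.Agent.MJD.Dual

/-!
The two leading coefficients of the Goulden-Jackson coefficients.
-/

namespace Pool.Agent.MJD

open MvPolynomial Pool.Agent.MJR Pool.Agent.MJT
open InfM ExpM DualM Pool.Agent.MJR.IdentM

noncomputable section

namespace FinM

theorem psi_exists {J : (n : ℕ) → n.Partition → n.Partition → QA}
    (hJ : ∀ n, IsJack RatFunc.X n (J n)) : ∃ psi, IsPsi RatFunc.X J psi := by
  have h0 : PowerSeries.constantCoeff (phi RatFunc.X J) = ((1 : (B3 QA)ˣ) : B3 QA) := by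
    rw [← PowerSeries.coeff_zero_eq_constantCoeff_apply, Units.val_one]
    exact ExtrM.phi_zero J hJ
  refine ⟨PowerSeries.mk (fun n => C (RatFunc.X * (n : QA)) *
    PowerSeries.coeff n (phi RatFunc.X J)) * PowerSeries.invOfUnit (phi RatFunc.X J) 1, ?_⟩
  intro n
  rw [mul_assoc, mul_comm (PowerSeries.invOfUnit _ _), PowerSeries.mul_invOfUnit _ _ h0, mul_one,
    PowerSeries.coeff_mk]

theorem cc_symm {n : ℕ} (J : n.Partition → n.Partition → QA) (p m v : n.Partition) :
    wtp RatFunc.X m * MJI.cc RatFunc.X J p m v = wtp RatFunc.X p * MJI.cc RatFunc.X J m p v := by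
  unfold MJI.cc
  simp only [Finset.mul_sum]
  refine Finset.sum_congr rfl fun l _ => ?_
  ring

theorem cc_swap {n : ℕ} (J : n.Partition → n.Partition → QA) (p m v : n.Partition) :
    MJI.cc RatFunc.X J p m v = MJI.cc RatFunc.X J p v m := by
  unfold MJI.cc
  simp only [Finset.mul_sum]
  refine Finset.sum_congr rfl fun l _ => ?_
  ring

/-- The two leading coefficients. -/
theorem top {J : (n : ℕ) → n.Partition → n.Partition → QA} (hJ : ∀ n, IsJack RatFunc.X n (J n))
    {n : ℕ} (p m v : n.Partition) (P : Polynomial ℚ)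
    (hP : evb P = MJI.cc RatFunc.X (J n) p m v) :
    (∀ i, n + p.parts.card < i + m.parts.card + v.parts.card → P.coeff i = 0) ∧
      (∀ i, n + p.parts.card ≤ i + m.parts.card + v.parts.card + 1 → 0 ≤ P.coeff i) := by
  obtain ⟨psi, hpsi⟩ := psi_exists hJ
  have h1 := cc_mem hJ hpsi p m v
  rw [← hP] at h1
  refine ⟨fun i hi => coeff_zero_of P _ (Oi_of_Pk h1) i ?_, fun i hi =>
    coeff_nonneg_of 2 P _ h1 i ?_⟩
  · unfold dd
    omega
  · unfold dd
    push_cast
    omega

/-- All coefficients if the degree is at most three. -/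
theorem small {J : (n : ℕ) → n.Partition → n.Partition → QA} (hJ : ∀ n, IsJack RatFunc.X n (J n))
    {n : ℕ} (p m v : n.Partition) (P : Polynomial ℚ)
    (hP : evb P = MJI.cc RatFunc.X (J n) p m v)
    (hd : n + p.parts.card ≤ m.parts.card + v.parts.card + 3) (i : ℕ) : 0 ≤ P.coeff i := by
  obtain ⟨h1, h2⟩ := top hJ p m v P hP
  by_cases hk : n + p.parts.card < m.parts.card + v.parts.card
  · rw [h1 i (by omega)]
  · obtain ⟨k, hk⟩ := Nat.exists_eq_add_of_le (not_lt.1 hk)
    refine low P k (by omega) (fun j hj => h1 j (by omega)) ?_ (fun j hj => h2 j (by omega)) i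
    have h3 := c_dual (hJ n) (MJI.cc RatFunc.X (J n)) (cc_sum (hJ n)) p m v
    have hy : (-(RatFunc.X : QA)) ≠ 0 := neg_ne_zero.2 RatFunc.X_ne_zero
    rw [← hP, hk, pow_add, mul_assoc] at h3
    exact (mul_left_cancel₀ (pow_ne_zero _ hy) h3).symm

theorem mulX (P : Polynomial ℚ) (k : ℕ) : evb (P * (Polynomial.X + 1) ^ k) =
    RatFunc.X ^ k * evb P := by
  have h1 : evb (Polynomial.X + 1) = RatFunc.X := by
    unfold evb bb
    rw [Polynomial.eval₂_add, Polynomial.eval₂_X, Polynomial.eval₂_one]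
    ring
  have h2 : evb ((Polynomial.X + 1) ^ k) = RatFunc.X ^ k := by
    rw [← h1]
    exact Polynomial.eval₂_pow _ _ _
  rw [evb_mul, h2, mul_comm]

/-- The same for the other two labellings. -/
theorem small' {J : (n : ℕ) → n.Partition → n.Partition → QA} (hJ : ∀ n, IsJack RatFunc.X n (J n))
    {n : ℕ} (p m v : n.Partition) (P : Polynomial ℚ)
    (hP : evb P = MJI.cc RatFunc.X (J n) p m v)
    (hd : n + m.parts.card ≤ p.parts.card + v.parts.card + 3) (i : ℕ) : 0 ≤ P.coeff i := by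
  rcases lt_or_ge p.parts.card m.parts.card with h | h
  · exact small hJ p m v P hP (by omega) i
  obtain ⟨k, hk⟩ := Nat.exists_eq_add_of_le h
  obtain ⟨psi, hpsi⟩ := psi_exists hJ
  obtain ⟨Q, hQ⟩ := mem_Qpol.1 (cc_Qpol hJ hpsi m p v)
  have h1 := small hJ m p v Q hQ hd
  have h2 := cc_symm (J n) p m v
  have hzm : (zed m : ℚ) ≠ 0 := Nat.cast_ne_zero.2 (zed_ne_zero m)
  have hX : (RatFunc.X : QA) ≠ 0 := RatFunc.X_ne_zero
  have h3 : P = Polynomial.C ((zed m : ℚ)⁻¹ * zed p) * (Q * (Polynomial.X + 1) ^ k) := by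
    apply evb_injective
    rw [evb_mul, mulX, hP, hQ]
    have h4 : evb (Polynomial.C ((zed m : ℚ)⁻¹ * zed p)) = (zed m : QA)⁻¹ * (zed p : QA) := by
      unfold evb
      rw [Polynomial.eval₂_C, map_mul, map_inv₀, map_natCast, map_natCast]
    have hzm' : (zed m : QA) ≠ 0 := Nat.cast_ne_zero.2 (zed_ne_zero m)
    rw [h4]
    unfold wtp at h2
    rw [hk, pow_add] at h2
    have h5 : (RatFunc.X : QA) ^ m.parts.card ≠ 0 := pow_ne_zero _ hX
    have h6 := mul_left_cancel₀ h5 (((mul_assoc _ _ _).symm.trans h2).trans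
      (by ring : _ = RatFunc.X ^ m.parts.card * (RatFunc.X ^ k * (zed p : QA) *
        MJI.cc RatFunc.X (J n) m p v)))
    field_simp
    rw [mul_comm, h6]
    ring
  rw [h3, Polynomial.coeff_C_mul]
  refine mul_nonneg (by positivity) ?_
  rw [Polynomial.coeff_mul]
  refine Finset.sum_nonneg fun x _ => mul_nonneg (h1 _) ?_
  rw [Polynomial.coeff_X_add_one_pow]
  positivity

/-- The final statement for `cc`. -/
theorem fin {J : (n : ℕ) → n.Partition → n.Partition → QA} (hJ : ∀ n, IsJack RatFunc.X n (J n))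
    {n : ℕ} (p m v : n.Partition) :
    ∃ P : Polynomial ℚ, evb P = MJI.cc RatFunc.X (J n) p m v ∧
      (∀ i, n + p.parts.card < i + m.parts.card + v.parts.card → P.coeff i = 0) ∧
      (∀ i, n + p.parts.card ≤ i + m.parts.card + v.parts.card + 1 → 0 ≤ P.coeff i) ∧
      ((n + p.parts.card ≤ m.parts.card + v.parts.card + 3 ∨
        n + m.parts.card ≤ p.parts.card + v.parts.card + 3 ∨
        n + v.parts.card ≤ p.parts.card + m.parts.card + 3) → ∀ i, 0 ≤ P.coeff i) := by
  obtain ⟨psi, hpsi⟩ := psi_exists hJ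
  obtain ⟨P, hP⟩ := mem_Qpol.1 (cc_Qpol hJ hpsi p m v)
  obtain ⟨h1, h2⟩ := top hJ p m v P hP
  refine ⟨P, hP, h1, h2, ?_⟩
  rintro (h | h | h) i
  · exact small hJ p m v P hP h i
  · exact small' hJ p m v P hP h i
  · rw [cc_swap] at hP
    exact small' hJ p v m P hP h i

/-- The final statement for the linear map. -/
theorem fin' {J : (n : ℕ) → n.Partition → n.Partition → QA} (hJ : ∀ n, IsJack RatFunc.X n (J n))
    {n : ℕ} (c : n.Partition → n.Partition → n.Partition → QA)
    (hc : ∀ l m v, ∑ p, J n l p * c p m v = J n l m * J n l v) (p m v : n.Partition) :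
    ∃ P : Polynomial ℚ, evb P = c p m v ∧
      (∀ i, n + p.parts.card < i + m.parts.card + v.parts.card → P.coeff i = 0) ∧
      (∀ i, n + p.parts.card ≤ i + m.parts.card + v.parts.card + 1 → 0 ≤ P.coeff i) ∧
      ((n + p.parts.card ≤ m.parts.card + v.parts.card + 3 ∨
        n + m.parts.card ≤ p.parts.card + v.parts.card + 3 ∨
        n + v.parts.card ≤ p.parts.card + m.parts.card + 3) → ∀ i, 0 ≤ P.coeff i) := by
  have h1 : (fun p => c p m v) = fun p => MJI.cc RatFunc.X (J n) p m v := by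
    apply CFin.c_eq fin_ident.2 (hJ n)
    intro l
    rw [hc, cc_sum (hJ n)]
  have h2 : c p m v = MJI.cc RatFunc.X (J n) p m v := congrFun h1 p
  rw [h2]
  exact fin hJ p m v

end FinM

end

end Pool.Agent.MJD
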