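import Pool.Agent.MJD.Defs

/-!
Integrality of a sequence from the constant terms of the `L^m f`.
-/

namespace Pool.Agent.MJD

open MvPolynomial Pool.Agent.MJR Pool.Agent.MJR.GradeM Pool.Agent.MJT
open Pool.Agent.MJI (dB BI)

noncomputable section

variable {K : Type} [Field K]

namespace Int2M

/-- `f` has length at most `l`, the terms of length `l` have `w`-degree at most `J`, and the
part of length `l` of the coefficient of `w ^ J` is that of `h`. -/
structure Top (l J : ℕ) (h : B3 K) (f : ℕ → B3 K) : Prop where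
  a : ∀ j m, l < Finsupp.degree m → coeff m (f j) = 0
  b : ∀ j m, J < j → Finsupp.degree m = l → coeff m (f j) = 0
  c : ∀ m, Finsupp.degree m = l → coeff m (f J) = coeff m h

theorem degree_add_single (m : Fin 3 × ℕ →₀ ℕ) (s : Fin 3 × ℕ) :
    Finsupp.degree (m + Finsupp.single s 1) = Finsupp.degree m + 1 := by
  rw [map_add, Finsupp.degree_single]

theorem coeff_X_mul_eq_zero {l : ℕ} (s : Fin 3 × ℕ) (f : B3 K)
    (hf : ∀ m, l = Finsupp.degree m → coeff m f = 0) (m : Fin 3 × ℕ →₀ ℕ)
    (hm : l + 1 = Finsupp.degree m) : coeff m (X s * f) = 0 := by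
  classical
  rw [coeff_X_mul']
  split_ifs with h
  · apply hf
    have h1 : m - Finsupp.single s 1 + Finsupp.single s 1 = m :=
      tsub_add_cancel_of_le (Finsupp.single_le_iff.2
        (Nat.one_le_iff_ne_zero.2 (Finsupp.mem_support_iff.1 h)))
    have h2 := degree_add_single (m - Finsupp.single s 1) s
    rw [h1] at h2
    omega
  · rfl

theorem dB_apply (al : K) (a : Fin 3) (k : ℕ) (f : B3 K) :
    dB al a k f = C (al * (k : K)) * pderiv (a, k) f := by
  unfold dB
  rw [Derivation.smul_apply, smul_eq_C_mul]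

theorem coeff_dB_low (al : K) (a : Fin 3) (k : ℕ) {l : ℕ} (f : B3 K)
    (hf : ∀ m, l < Finsupp.degree m → coeff m f = 0) (m : Fin 3 × ℕ →₀ ℕ)
    (hm : l < Finsupp.degree m) : coeff m (dB al a k f) = 0 := by
  rw [dB_apply, coeff_C_mul, coeff_pderiv, hf, zero_mul, mul_zero]
  rw [degree_add_single]
  omega

theorem coeff_low (al be : K) (a : Fin 3) {l : ℕ} {f : ℕ → B3 K}
    (hf : ∀ j m, l < Finsupp.degree m → coeff m (f j) = 0) (i : ℕ) (m : Fin 3 × ℕ →₀ ℕ)
    (hm : l < Finsupp.degree m) :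
    coeff m (∑ k ∈ Finset.Icc 1 i, dB al a k (f (i - k)) + C (be * (i : K)) * f i) = 0 := by
  rw [coeff_add, coeff_sum, coeff_C_mul, hf i m hm, mul_zero, add_zero]
  exact Finset.sum_eq_zero fun k _ => coeff_dB_low al a k _ (fun m hm => hf _ m hm) m hm

theorem coeff_LB (al be : K) (a : Fin 3) (N : ℕ) {l : ℕ} {f : ℕ → B3 K}
    (hf : ∀ j m, l < Finsupp.degree m → coeff m (f j) = 0) (i : ℕ) (m : Fin 3 × ℕ →₀ ℕ)
    (hm : l < Finsupp.degree m) :
    coeff m (LB al be a N f i) = ∑ k ∈ Finset.Icc 1 N, coeff m (X (a, k) * f (i + k)) := by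
  unfold LB
  rw [add_assoc, coeff_add, coeff_low al be a hf i m hm, add_zero, coeff_sum]

theorem step (al be : K) (a : Fin 3) {N l J : ℕ} (hN : 1 ≤ N) {h : B3 K} {f : ℕ → B3 K}
    (ht : Top l (J + 1) h f) : Top (l + 1) J (X (a, 1) * h) (LB al be a N f) := by
  classical
  refine ⟨?_, ?_, ?_⟩
  · intro i m hm
    rw [coeff_LB al be a N ht.a i m (by omega)]
    refine Finset.sum_eq_zero fun k _ => ?_
    obtain ⟨d, hd⟩ : ∃ d, d + 1 = Finsupp.degree m := ⟨Finsupp.degree m - 1, by omega⟩
    exact coeff_X_mul_eq_zero (l := d) _ _ (fun m' hm' => ht.a _ m' (by omega)) m hd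
  · intro i m hi hm
    rw [coeff_LB al be a N ht.a i m (by omega)]
    refine Finset.sum_eq_zero fun k hk => ?_
    rw [Finset.mem_Icc] at hk
    exact coeff_X_mul_eq_zero (l := l) _ _ (fun m' hm' => ht.b _ m' (by omega) hm'.symm) m
      hm.symm
  · intro m hm
    rw [coeff_LB al be a N ht.a J m (by omega), Finset.sum_eq_single 1]
    · rw [← sub_eq_zero, ← coeff_sub, ← mul_sub]
      refine coeff_X_mul_eq_zero (l := l) _ _ (fun m' hm' => ?_) m hm.symm
      rw [coeff_sub, ht.c m' hm'.symm, sub_self]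
    · intro k hk hk1
      rw [Finset.mem_Icc] at hk
      exact coeff_X_mul_eq_zero (l := l) _ _ (fun m' hm' => ht.b _ m' (by omega) hm'.symm) m
        hm.symm
    · intro h
      exact absurd (Finset.mem_Icc.2 ⟨le_rfl, hN⟩) h

theorem steps (al be : K) (a : Fin 3) {N : ℕ} (k : ℕ) : ∀ {l J : ℕ} {h : B3 K} {f : ℕ → B3 K},
    J + k ≤ N → Top l (J + k) h f → Top (l + k) J (X (a, 1) ^ k * h) ((LB al be a N)^[k] f) := by
  induction k with
  | zero =>
    intro l J h f _ ht
    rw [pow_zero, one_mul]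
    exact ht
  | succ k ih =>
    intro l J h f hN ht
    have h1 := ih (J := J) (by omega) (step al be a (N := N) (J := J + k) (by omega) ht)
    have e1 : l + 1 + k = l + (k + 1) := by omega
    have e2 : (X (a, 1) : B3 K) ^ k * (X (a, 1) * h) = X (a, 1) ^ (k + 1) * h := by ring
    rw [e1, e2] at h1
    exact h1

theorem C_mem {G : Subring K} {c : K} (h : c ∈ G) : (C c : B3 K) ∈ BI (σ := Fin 3 × ℕ) G := by
  classical
  intro m
  rw [coeff_C]
  split_ifs
  · exact h
  · exact zero_mem _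

theorem X_mem (G : Subring K) (s : Fin 3 × ℕ) : (X s : B3 K) ∈ BI (σ := Fin 3 × ℕ) G := by
  classical
  intro m
  rw [MvPolynomial.coeff_X]
  split_ifs
  · exact one_mem _
  · exact zero_mem _

theorem dB_mem {G : Subring K} {al : K} (hal : al ∈ G) (a : Fin 3) (k : ℕ) {f : B3 K}
    (hf : f ∈ BI (σ := Fin 3 × ℕ) G) : dB al a k f ∈ BI (σ := Fin 3 × ℕ) G := by
  rw [dB_apply]
  refine mul_mem (C_mem (mul_mem hal (natCast_mem _ _))) ?_
  intro m
  rw [coeff_pderiv]
  exact mul_mem (hf _) (add_mem (natCast_mem _ _) (one_mem _))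

theorem LB_mem {G : Subring K} {al be : K} (hal : al ∈ G) (hbe : be ∈ G) (a : Fin 3) (N : ℕ) {f : ℕ → B3 K}
    (hf : ∀ i, f i ∈ BI (σ := Fin 3 × ℕ) G) (i : ℕ) : LB al be a N f i ∈ BI (σ := Fin 3 × ℕ) G := by
  unfold LB
  refine add_mem (add_mem (sum_mem fun k _ => mul_mem (X_mem G _) (hf _))
    (sum_mem fun k _ => dB_mem hal a k (hf _))) (mul_mem (C_mem ?_) (hf i))
  exact mul_mem (hbe) (natCast_mem _ _)

theorem LB_iter_mem {G : Subring K} {al be : K} (hal : al ∈ G) (hbe : be ∈ G) (a : Fin 3) (N m : ℕ)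
    {f : ℕ → B3 K} (hf : ∀ i, f i ∈ BI (σ := Fin 3 × ℕ) G) (i : ℕ) :
    ((LB al be a N)^[m] f) i ∈ BI (σ := Fin 3 × ℕ) G := by
  induction m generalizing f with
  | zero => exact hf i
  | succ m ih => exact ih (LB_mem hal hbe a N hf)

theorem LB_sub (al be : K) (a : Fin 3) (N : ℕ) (f g : ℕ → B3 K) :
    LB al be a N (f - g) = LB al be a N f - LB al be a N g := by
  funext i
  rw [Pi.sub_apply]
  unfold LB
  simp only [Pi.sub_apply, mul_sub, map_sub, Finset.sum_sub_distrib]
  ring

theorem LB_iter_sub (al be : K) (a : Fin 3) (N m : ℕ) (f g : ℕ → B3 K) :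
    (LB al be a N)^[m] (f - g) = (LB al be a N)^[m] f - (LB al be a N)^[m] g := by
  induction m generalizing f g with
  | zero => rfl
  | succ m ih =>
    rw [Function.iterate_succ_apply, Function.iterate_succ_apply, Function.iterate_succ_apply,
      LB_sub, ih]

theorem coeff_X_pow_mul_shift (s : Fin 3 × ℕ) (k : ℕ) (m : Fin 3 × ℕ →₀ ℕ) (f : B3 K) :
    coeff (Finsupp.single s k + m) (X s ^ k * f) = coeff m f := by
  rw [X_pow_eq_monomial, coeff_monomial_mul, one_mul]

/-- the part with coefficients which are not integral -/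
def bad (G : Subring K) (f : B3 K) : B3 K := by
  classical
  exact ∑ m ∈ f.support.filter (fun m => coeff m f ∉ G), monomial m (coeff m f)

theorem coeff_bad (G : Subring K) (f : B3 K) (m : Fin 3 × ℕ →₀ ℕ) [Decidable (coeff m f ∈ G)] :
    coeff m (bad G f) = if coeff m f ∈ G then 0 else coeff m f := by
  classical
  unfold bad
  rw [coeff_sum]
  simp only [coeff_monomial]
  rw [Finset.sum_ite_eq']
  by_cases h1 : coeff m f ∈ G
  · rw [if_pos h1, if_neg]
    rw [Finset.mem_filter]
    exact fun h => h.2 h1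
  · rw [if_neg h1, if_pos]
    rw [Finset.mem_filter, mem_support_iff]
    refine ⟨fun h => h1 ?_, h1⟩
    rw [h]
    exact zero_mem _

theorem sub_bad (G : Subring K) (f : B3 K) : f - bad G f ∈ BI (σ := Fin 3 × ℕ) G := by
  classical
  intro m
  rw [coeff_sub, coeff_bad]
  split_ifs with h
  · rw [sub_zero]
    exact h
  · rw [sub_self]
    exact zero_mem _

end Int2M

open Int2M in
/-- (Int2) Integrality from the constant terms of the `L^m f`. -/
theorem int2 (K : Type) [Field K] (al be : K) : Int2St K al be := by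
  classical
  intro G hal hbe a N f hN h i
  by_contra hfi
  -- the bad part
  set g : ℕ → B3 K := fun j => bad G (f j) with hg
  have hfg : ∀ j, (f - g) j ∈ BI (σ := Fin 3 × ℕ) G := fun j => sub_bad G _
  have hgm : ∀ m, ((LB al be a N)^[m] g) 0 ∈ BI (σ := Fin 3 × ℕ) G := by
    intro m
    have h1 : g = f - (f - g) := by
      funext j
      simp only [Pi.sub_apply]
      ring
    rw [h1, LB_iter_sub, Pi.sub_apply]
    exact sub_mem (h m) (LB_iter_mem hal hbe a N m hfg 0)
  have hbad : ∀ j m, coeff m (g j) ≠ 0 → coeff m (g j) ∉ G := by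
    intro j m
    rw [hg]
    beta_reduce
    rw [coeff_bad]
    split_ifs with h1
    · intro h2
      exact absurd rfl h2
    · intro _
      exact h1
  have hi0 : g i ≠ 0 := by
    intro h0
    apply hfi
    have h1 := hfg i
    rw [Pi.sub_apply, h0, sub_zero] at h1
    exact h1
  -- the largest length
  obtain ⟨m0, hm0⟩ := MvPolynomial.ne_zero_iff.1 hi0
  let P : ℕ → Prop := fun l => ∃ j m, Finsupp.degree m = l ∧ coeff m (g j) ≠ 0
  have hNg : ∀ j, N < j → g j = 0 := by
    intro j hj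
    rw [hg]
    beta_reduce
    rw [hN j hj]
    apply MvPolynomial.ext
    intro m
    rw [coeff_bad, coeff_zero]
    simp
  let bd : ℕ := ∑ j ∈ Finset.range (N + 1), (g j).totalDegree
  have hbd : ∀ l, P l → l ≤ bd := by
    rintro l ⟨j, m, rfl, hm⟩
    have hj : j ∈ Finset.range (N + 1) := by
      rw [Finset.mem_range]
      by_contra h1
      rw [hNg j (by omega), coeff_zero] at hm
      exact hm rfl
    have h1 : Finsupp.degree m ≤ (g j).totalDegree := by
      have h2 := le_totalDegree (mem_support_iff.2 hm)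
      rw [Finsupp.degree_apply]
      exact h2
    exact le_trans h1 (Finset.single_le_sum (f := fun j => (g j).totalDegree)
      (fun _ _ => Nat.zero_le _) hj)
  have hP : ∃ l, P l := ⟨_, i, m0, rfl, hm0⟩
  set l := Nat.findGreatest P bd with hl
  have hPl : P l := by
    obtain ⟨l', hl'⟩ := hP
    exact Nat.findGreatest_spec (hbd l' hl') hl'
  have hlmax : ∀ j m, l < Finsupp.degree m → coeff m (g j) = 0 := by
    intro j m hm
    by_contra h1
    have h2 : P (Finsupp.degree m) := ⟨j, m, rfl, h1⟩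
    exact absurd h2 (Nat.findGreatest_is_greatest hm (hbd _ h2))
  -- the largest degree
  let Q : ℕ → Prop := fun j => ∃ m, Finsupp.degree m = l ∧ coeff m (g j) ≠ 0
  have hQb : ∀ j, Q j → j ≤ N := by
    rintro j ⟨m, _, hm⟩
    by_contra h1
    rw [hNg j (by omega), coeff_zero] at hm
    exact hm rfl
  obtain ⟨j1, m1, hm1, hc1⟩ := hPl
  set J := Nat.findGreatest Q N with hJ
  have hQJ : Q J := Nat.findGreatest_spec (hQb j1 ⟨m1, hm1, hc1⟩) ⟨m1, hm1, hc1⟩
  have hJmax : ∀ j m, J < j → Finsupp.degree m = l → coeff m (g j) = 0 := by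
    intro j m hj hm
    by_contra h1
    have h2 : Q j := ⟨m, hm, h1⟩
    exact absurd h2 (Nat.findGreatest_is_greatest hj (hQb _ h2))
  have hJN : 0 + J ≤ N := by
    rw [zero_add]
    exact hQb J hQJ
  obtain ⟨m2, hm2, hc2⟩ := hQJ
  have htop : Top l (0 + J) (g J) g := by
    rw [zero_add]
    exact ⟨hlmax, hJmax, fun _ _ => rfl⟩
  have htop2 := steps al be a J hJN htop
  have h3 := htop2.c (Finsupp.single (a, 1) J + m2) (by
    rw [map_add, Finsupp.degree_single, hm2, add_comm])
  rw [coeff_X_pow_mul_shift] at h3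
  have h4 := hgm J (Finsupp.single (a, 1) J + m2)
  rw [h3] at h4
  exact hbad J m2 hc2 h4

end

end Pool.Agent.MJD
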