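import Pool.Agent.MJD.Int1

/-!
The induction on the level.
-/

namespace Pool.Agent.MJD

open MvPolynomial Pool.Agent.MJR Pool.Agent.MJR.GradeM Pool.Agent.MJT
open Pool.Agent.MJI (dB BI)

noncomputable section

variable {K : Type} [Field K]

namespace MainM

/-- the derivation `dB`, coefficientwise -/
def dP (al : K) (a : Fin 3) (k : ℕ) (f : PowerSeries (B3 K)) : PowerSeries (B3 K) :=
  PowerSeries.mk fun n => dB al a k (PowerSeries.coeff n f)

theorem coeff_dP (al : K) (a : Fin 3) (k n : ℕ) (f : PowerSeries (B3 K)) :
    PowerSeries.coeff n (dP al a k f) = dB al a k (PowerSeries.coeff n f) :=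
  PowerSeries.coeff_mk _ _

theorem dP_mul (al : K) (a : Fin 3) (k : ℕ) (f g : PowerSeries (B3 K)) :
    dP al a k (f * g) = f * dP al a k g + dP al a k f * g := by
  apply PowerSeries.ext
  intro n
  rw [coeff_dP, map_add, PowerSeries.coeff_mul, PowerSeries.coeff_mul, PowerSeries.coeff_mul,
    map_sum, ← Finset.sum_add_distrib]
  refine Finset.sum_congr rfl fun x _ => ?_
  rw [(dB al a k).leibniz, coeff_dP, coeff_dP, smul_eq_mul, smul_eq_mul]
  ring

/-- The Lax operator on sequences of series, twisted by `s`. -/
def LP (al be : K) (a : Fin 3) (N : ℕ) (s : ℕ → PowerSeries (B3 K)) (f : ℕ → PowerSeries (B3 K))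
    (i : ℕ) : PowerSeries (B3 K) :=
  ∑ k ∈ Finset.Icc 1 N, PowerSeries.C (X (a, k)) * f (i + k) +
    ∑ k ∈ Finset.Icc 1 i, (dP al a k (f (i - k)) + s k * f (i - k)) +
    PowerSeries.C (C (be * (i : K))) * f i

theorem coeff_LP (al be : K) (a : Fin 3) (N : ℕ) (s f : ℕ → PowerSeries (B3 K)) (n i : ℕ) :
    PowerSeries.coeff n (LP al be a N s f i) = LB al be a N (fun i => PowerSeries.coeff n (f i)) i +
      ∑ k ∈ Finset.Icc 1 i, PowerSeries.coeff n (s k * f (i - k)) := by
  unfold LP LB
  simp only [map_add, map_sum, PowerSeries.coeff_C_mul, coeff_dP, Finset.sum_add_distrib]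
  ring

theorem conj (al be : K) (a : Fin 3) (N : ℕ) {Φ : PowerSeries (B3 K)}
    {s : ℕ → PowerSeries (B3 K)} (hs : ∀ k, dP al a k Φ = Φ * s k)
    (f : ℕ → PowerSeries (B3 K)) :
    LP al be a N (fun _ => 0) (fun i => Φ * f i) = fun i => Φ * LP al be a N s f i := by
  funext i
  have e1 : ∑ k ∈ Finset.Icc 1 N, PowerSeries.C (X (a, k)) * (Φ * f (i + k)) =
      Φ * ∑ k ∈ Finset.Icc 1 N, PowerSeries.C (X (a, k)) * f (i + k) := by
    rw [Finset.mul_sum]
    exact Finset.sum_congr rfl fun k _ => mul_left_comm _ _ _
  have e2 : ∑ k ∈ Finset.Icc 1 i, (dP al a k (Φ * f (i - k)) +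
        (0 : PowerSeries (B3 K)) * (Φ * f (i - k))) =
      Φ * ∑ k ∈ Finset.Icc 1 i, (dP al a k (f (i - k)) + s k * f (i - k)) := by
    rw [Finset.mul_sum]
    refine Finset.sum_congr rfl fun k _ => ?_
    rw [dP_mul, hs, zero_mul, add_zero, mul_add, mul_assoc]
  have e3 : PowerSeries.C (C (be * (i : K))) * (Φ * f i) =
      Φ * (PowerSeries.C (C (be * (i : K))) * f i) := mul_left_comm _ _ _
  unfold LP
  rw [e1, e2, e3, mul_add, mul_add]

theorem conj_iter (al be : K) (a : Fin 3) (N : ℕ) {Φ : PowerSeries (B3 K)}
    {s : ℕ → PowerSeries (B3 K)} (hs : ∀ k, dP al a k Φ = Φ * s k) (m : ℕ)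
    (f : ℕ → PowerSeries (B3 K)) :
    (LP al be a N (fun _ => 0))^[m] (fun i => Φ * f i) = fun i => Φ * ((LP al be a N s)^[m] f) i := by
  induction m generalizing f with
  | zero => rfl
  | succ m ih =>
    rw [Function.iterate_succ_apply, Function.iterate_succ_apply, conj al be a N hs, ih]

theorem coeff_iter (al be : K) (a : Fin 3) (N m n : ℕ) (f : ℕ → PowerSeries (B3 K)) (i : ℕ) :
    PowerSeries.coeff n (((LP al be a N (fun _ => 0))^[m] f) i) =
      ((LB al be a N)^[m] (fun i => PowerSeries.coeff n (f i))) i := by
  induction m generalizing f with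
  | zero => rfl
  | succ m ih =>
    have h : (fun i => PowerSeries.coeff n (LP al be a N (fun _ => 0) f i)) =
        LB al be a N (fun i => PowerSeries.coeff n (f i)) := by
      funext i
      rw [coeff_LP]
      simp
    rw [Function.iterate_succ_apply, Function.iterate_succ_apply, ih, h]

theorem LB1_iter_apply (al be : K) (b : Fin 3) (N m : ℕ) (h : ℕ → ℕ → B3 K) (i j : ℕ) :
    ((LB1 al be b N)^[m] h) i j = ((LB al be b N)^[m] (fun i' => h i' j)) i := by
  induction m generalizing h with
  | zero => rfl
  | succ m ih =>
    rw [Function.iterate_succ_apply, Function.iterate_succ_apply, ih]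
    rfl

theorem LB_iter_add (al be : K) (a : Fin 3) (N m : ℕ) (f g : ℕ → B3 K) (i : ℕ) :
    ((LB al be a N)^[m] (fun i => f i + g i)) i = ((LB al be a N)^[m] f) i + ((LB al be a N)^[m] g) i := by
  induction m generalizing f g with
  | zero => rfl
  | succ m ih =>
    have h : LB al be a N (fun i => f i + g i) = fun i => LB al be a N f i + LB al be a N g i := by
      funext i
      exact Int1M.LB_add al be a N f g i
    rw [Function.iterate_succ_apply, Function.iterate_succ_apply, Function.iterate_succ_apply,
      h, ih]

/-- a product of series whose low coefficients are integral -/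
theorem coeff_mul_mem {G : Subring K} {f g : PowerSeries (B3 K)} {n : ℕ}
    (h : ∀ x ∈ Finset.HasAntidiagonal.antidiagonal n,
      PowerSeries.coeff x.1 f * PowerSeries.coeff x.2 g ∈ BI (σ := Fin 3 × ℕ) G) :
    PowerSeries.coeff n (f * g) ∈ BI (σ := Fin 3 × ℕ) G := by
  rw [PowerSeries.coeff_mul]
  exact sum_mem h

/-- integral up to level `n` -/
def Up (G : Subring K) (n : ℕ) (f : PowerSeries (B3 K)) : Prop :=
  ∀ m, m ≤ n → PowerSeries.coeff m f ∈ BI (σ := Fin 3 × ℕ) G

theorem Up_mul {G : Subring K} {n : ℕ} {f g : PowerSeries (B3 K)} (hf : Up G n f)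
    (hg : Up G n g) : Up G n (f * g) := by
  intro m hm
  refine coeff_mul_mem fun x hx => ?_
  rw [Finset.HasAntidiagonal.mem_antidiagonal] at hx
  exact mul_mem (hf _ (by omega)) (hg _ (by omega))

theorem Up_LP {G : Subring K} {al be : K} (hal : al ∈ G) (hbe : be ∈ G) (a : Fin 3) (N : ℕ) {n : ℕ}
    {s f : ℕ → PowerSeries (B3 K)} (hs : ∀ k, Up G n (s k)) (hf : ∀ i, Up G n (f i)) (i : ℕ) :
    Up G n (LP al be a N s f i) := by
  intro m hm
  rw [coeff_LP]
  exact add_mem (Int2M.LB_mem hal hbe a N (fun i => hf i m hm) i)
    (sum_mem fun k _ => Up_mul (hs k) (hf _) m hm)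

theorem Up_LP_iter {G : Subring K} {al be : K} (hal : al ∈ G) (hbe : be ∈ G) (a : Fin 3) (N : ℕ) {n : ℕ}
    {s : ℕ → PowerSeries (B3 K)} (hs : ∀ k, Up G n (s k)) (m : ℕ)
    {f : ℕ → PowerSeries (B3 K)} (hf : ∀ i, Up G n (f i)) (i : ℕ) :
    Up G n (((LP al be a N s)^[m] f) i) := by
  induction m generalizing f with
  | zero => exact hf i
  | succ m ih =>
    rw [Function.iterate_succ_apply]
    exact ih (Up_LP hal hbe a N hs hf)

/-- the top coefficient of the twisted powers -/
theorem top_iter {G : Subring K} {al be : K} (hal : al ∈ G) (hbe : be ∈ G) (a : Fin 3) (N : ℕ) {n : ℕ}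
    {s : ℕ → PowerSeries (B3 K)} (hs : ∀ k, Up G n (s k))
    (hs0 : ∀ k, PowerSeries.coeff 0 (s k) = 0) (m : ℕ) {f : ℕ → PowerSeries (B3 K)}
    (hf : ∀ i, Up G n (f i)) (hf0 : ∀ i, PowerSeries.coeff 0 (f i) = 0) (i : ℕ) :
    PowerSeries.coeff (n + 1) (((LP al be a N s)^[m] f) i) -
      ((LB al be a N)^[m] (fun i => PowerSeries.coeff (n + 1) (f i))) i ∈
        BI (σ := Fin 3 × ℕ) G := by
  induction m generalizing f with
  | zero =>
    have h : PowerSeries.coeff (n + 1) (((LP al be a N s)^[0] f) i) -
        ((LB al be a N)^[0] (fun i => PowerSeries.coeff (n + 1) (f i))) i = 0 := sub_self _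
    rw [h]
    exact zero_mem _
  | succ m ih =>
    have hg0 : ∀ i, PowerSeries.coeff 0 (LP al be a N s f i) = 0 := by
      intro i
      rw [coeff_LP]
      have e1 : (fun i => PowerSeries.coeff 0 (f i)) = fun _ => (0 : B3 K) := by
        funext i
        exact hf0 i
      rw [e1]
      have e2 : LB al be a N (fun _ => (0 : B3 K)) i = 0 := by
        unfold LB
        simp
      rw [e2, zero_add]
      refine Finset.sum_eq_zero fun k _ => ?_
      rw [PowerSeries.coeff_zero_eq_constantCoeff_apply, map_mul,
        ← PowerSeries.coeff_zero_eq_constantCoeff_apply,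
        ← PowerSeries.coeff_zero_eq_constantCoeff_apply, hf0, mul_zero]
    have h1 := ih (Up_LP hal hbe a N hs hf) hg0
    set r : ℕ → B3 K := fun i => ∑ k ∈ Finset.Icc 1 i, PowerSeries.coeff (n + 1) (s k * f (i - k))
      with hr
    have hrm : ∀ i, r i ∈ BI (σ := Fin 3 × ℕ) G := by
      intro i
      refine sum_mem fun k _ => coeff_mul_mem fun x hx => ?_
      rw [Finset.HasAntidiagonal.mem_antidiagonal] at hx
      by_cases hx1 : x.1 = 0
      · rw [hx1, hs0, zero_mul]
        exact zero_mem _
      · by_cases hx2 : x.2 = 0
        · rw [hx2, hf0, mul_zero]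
          exact zero_mem _
        · exact mul_mem (hs k _ (by omega)) (hf _ _ (by omega))
    have e3 : (fun i => PowerSeries.coeff (n + 1) (LP al be a N s f i)) = fun i =>
        LB al be a N (fun i => PowerSeries.coeff (n + 1) (f i)) i + r i := by
      funext i
      exact coeff_LP al be a N s f (n + 1) i
    rw [e3, LB_iter_add] at h1
    rw [Function.iterate_succ_apply, Function.iterate_succ_apply]
    have h2 := Int2M.LB_iter_mem hal hbe a N m hrm i
    have h3 := add_mem h1 h2
    have e4 : ∀ u v w : B3 K, u - (v + w) + w = u - v := by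
      intro u v w
      ring
    rw [e4] at h3
    exact h3

/-- division by a series with constant coefficient one -/
theorem coeff_eq_of_mul {Φ f g : PowerSeries (B3 K)} (hΦ : PowerSeries.coeff 0 Φ = 1) {N : ℕ}
    (h : ∀ n, n ≤ N → PowerSeries.coeff n (Φ * f) = PowerSeries.coeff n (Φ * g)) {n : ℕ}
    (hn : n ≤ N) : PowerSeries.coeff n f = PowerSeries.coeff n g := by
  have h0 : PowerSeries.constantCoeff Φ = ((1 : (B3 K)ˣ) : B3 K) := by
    rw [← PowerSeries.coeff_zero_eq_constantCoeff_apply, hΦ, Units.val_one]
  have h1 := PowerSeries.mul_invOfUnit Φ 1 h0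
  have h2 : ∀ u : PowerSeries (B3 K), u = PowerSeries.invOfUnit Φ 1 * (Φ * u) := by
    intro u
    rw [← mul_assoc, mul_comm (PowerSeries.invOfUnit Φ 1) Φ, h1, one_mul]
  rw [h2 f, h2 g, PowerSeries.coeff_mul, PowerSeries.coeff_mul]
  refine Finset.sum_congr rfl fun x hx => ?_
  rw [Finset.HasAntidiagonal.mem_antidiagonal] at hx
  rw [h x.2 (by omega)]

theorem dB_one (al : K) (a : Fin 3) (k : ℕ) : dB al a k (1 : B3 K) = 0 :=
  Derivation.map_one_eq_zero _

theorem dB_zero (al : K) (a : Fin 3) (f : B3 K) : dB al a 0 f = 0 := by
  rw [Int2M.dB_apply, Nat.cast_zero, mul_zero, C_0, zero_mul]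

end MainM

open MainM in
/-- (Main) The induction on the level. -/
theorem main (K : Type) [Field K] (al be : K) (h1 : Int1St K al be) (h2 : Int2St K al be) :
    MainSt K al be := by
  classical
  intro G hal hbe F hF0 hFs hsys psi hpsi
  set Φ : PowerSeries (B3 K) := PowerSeries.mk F with hΦ
  have hΦ0 : PowerSeries.coeff 0 Φ = 1 := by rw [hΦ, PowerSeries.coeff_mk, hF0]
  set s : Fin 3 → ℕ → PowerSeries (B3 K) := fun a k => PowerSeries.mk (psi a k) with hs
  have hsc : ∀ a k n, PowerSeries.coeff n (s a k) = psi a k n := fun a k n =>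
    PowerSeries.coeff_mk _ _
  have hds : ∀ a k, dP al a k Φ = Φ * s a k := by
    intro a k
    apply PowerSeries.ext
    intro n
    rw [coeff_dP, hΦ, PowerSeries.coeff_mk, hpsi, PowerSeries.coeff_mul]
    refine Finset.sum_congr rfl fun x _ => ?_
    rw [PowerSeries.coeff_mk, hsc]
  -- vanishing
  have hpsi0 : ∀ a k, psi a k 0 = 0 := by
    intro a k
    have h := hpsi a k 0
    rw [hF0, dB_one, Finset.Nat.antidiagonal_zero, Finset.sum_singleton, hF0, one_mul] at h
    exact h.symm
  have hz : ∀ a k n, (∀ m, m ≤ n → dB al a k (F m) = 0) → psi a k n = 0 := by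
    intro a k n h
    have h3 : ∀ m, m ≤ n → PowerSeries.coeff m (Φ * s a k) = PowerSeries.coeff m (Φ * 0) := by
      intro m hm
      rw [← hds, coeff_dP, mul_zero, map_zero, hΦ, PowerSeries.coeff_mk]
      exact h m hm
    have h4 := coeff_eq_of_mul hΦ0 h3 le_rfl
    rw [hsc, map_zero] at h4
    exact h4
  have key : ∀ n, ∀ a k, ∀ m, m ≤ n → psi a k m ∈ BI (σ := Fin 3 × ℕ) G := by
    intro n
    induction n with
    | zero =>
      intro a k m hm
      have hm0 : m = 0 := by omega
      rw [hm0, hpsi0]
      exact zero_mem _
    | succ n ih =>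
      have hup : ∀ a k, Up G n (s a k) := by
        intro a k m hm
        rw [hsc]
        exact ih a k m hm
      have hs0 : ∀ a k, PowerSeries.coeff 0 (s a k) = 0 := by
        intro a k
        rw [hsc]
        exact hpsi0 a k
      intro a k m hm
      rcases Nat.lt_or_ge m (n + 1) with hmn | hmn
      · exact ih a k m (by omega)
      have hmn : m = n + 1 := by omega
      subst hmn
      clear hm hmn
      obtain ⟨b, c, hbc, W, hW⟩ := hsys a
      -- the quotient `g`
      have h0 : PowerSeries.constantCoeff Φ = ((1 : (B3 K)ˣ) : B3 K) := by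
        rw [← PowerSeries.coeff_zero_eq_constantCoeff_apply, hΦ0, Units.val_one]
      have hinv := PowerSeries.mul_invOfUnit Φ 1 h0
      set Ψ := PowerSeries.invOfUnit Φ 1 with hΨ
      set Ws : ℕ → ℕ → PowerSeries (B3 K) := fun i j => PowerSeries.mk fun n => W n i j with hWs
      have hWc : ∀ i j n, PowerSeries.coeff n (Ws i j) = W n i j := fun i j n =>
        PowerSeries.coeff_mk _ _
      set g : ℕ → ℕ → PowerSeries (B3 K) := fun i j => Ψ * Ws i j with hg
      have hΦg : ∀ i j, Φ * g i j = Ws i j := by
        intro i j
        rw [hg]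
        beta_reduce
        rw [← mul_assoc, hinv, one_mul]
      have hgs : ∀ i j m, (∀ m', m' ≤ m → W m' i j = 0) → PowerSeries.coeff m (g i j) = 0 := by
        intro i j m h
        rw [hg]
        beta_reduce
        rw [PowerSeries.coeff_mul]
        refine Finset.sum_eq_zero fun x hx => ?_
        rw [Finset.HasAntidiagonal.mem_antidiagonal] at hx
        rw [hWc, h x.2 (by omega), mul_zero]
      -- (1) integrality of `g`
      have hg1 : ∀ m, m ≤ n → ∀ i j, PowerSeries.coeff m (g i j) ∈ BI (σ := Fin 3 × ℕ) G := by
        intro m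
        induction m using Nat.strong_induction_on with
        | _ m ihm =>
          intro hm
          refine h1 G hal hbe b c hbc m (fun i j => PowerSeries.coeff m (g i j)) ?_ ?_ ?_ ?_
          · intro i j hi
            exact hgs i j m fun m' hm' => hW.s1 m' i j (by omega)
          · intro i j hj
            exact hgs i j m fun m' hm' => hW.s2 m' i j (by omega)
          · intro i
            beta_reduce
            have e1 : g i 0 = if i = 0 then 1 else 0 := by
              have e2 : Ws i 0 = if i = 0 then Φ else 0 := by
                apply PowerSeries.ext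
                intro n
                rw [hWc, hW.z1]
                split_ifs
                · rw [hΦ, PowerSeries.coeff_mk]
                · rw [map_zero]
              rw [hg]
              beta_reduce
              rw [e2]
              split_ifs
              · rw [mul_comm, hinv]
              · rw [mul_zero]
            rw [e1]
            split_ifs
            · rw [PowerSeries.coeff_one]
              split_ifs
              · exact one_mem _
              · exact zero_mem _
            · rw [map_zero]
              exact zero_mem _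
          · intro i j
            -- the Lax equation at level `m`
            have e1 : ∀ m', m' ≤ m →
                PowerSeries.coeff m' (Φ * LP al be b m (s b) (fun i' => g i' j) i) =
                PowerSeries.coeff m' (Φ * LP al be c m (s c) (fun j' => g i j') j) := by
              intro m' hm'
              have e2 := congrFun (conj al be b m (hds b) (fun i' => g i' j)) i
              have e3 := congrFun (conj al be c m (hds c) (fun j' => g i j')) j
              rw [← e2, ← e3, coeff_LP, coeff_LP]
              simp only [hΦg, hWc, zero_mul, map_zero, Finset.sum_const_zero, add_zero]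
              exact hW.L m m' hm' i j
            have e4 := coeff_eq_of_mul hΦ0 e1 le_rfl
            rw [coeff_LP, coeff_LP] at e4
            have e5 : LB1 al be b m (fun i j => PowerSeries.coeff m (g i j)) i j -
                LB2 al be c m (fun i j => PowerSeries.coeff m (g i j)) i j =
                ∑ k ∈ Finset.Icc 1 j, PowerSeries.coeff m (s c k * g i (j - k)) -
                ∑ k ∈ Finset.Icc 1 i, PowerSeries.coeff m (s b k * g (i - k) j) := by
              unfold LB1 LB2
              rw [sub_eq_sub_iff_add_eq_add, e4]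
              ring
            rw [e5]
            have e6 : ∀ (d : Fin 3) (k i j : ℕ),
                PowerSeries.coeff m (s d k * g i j) ∈ BI (σ := Fin 3 × ℕ) G := by
              intro d k i j
              refine coeff_mul_mem fun x hx => ?_
              rw [Finset.HasAntidiagonal.mem_antidiagonal] at hx
              by_cases hx1 : x.1 = 0
              · rw [hx1, hs0, zero_mul]
                exact zero_mem _
              · exact mul_mem (hup d k _ (by omega)) (ihm x.2 (by omega) (by omega) i j)
            exact sub_mem (sum_mem fun k _ => e6 _ _ _ _) (sum_mem fun k _ => e6 _ _ _ _)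
      -- (2), (3), (4)
      rcases Nat.eq_zero_or_pos k with hk | hk
      · rw [hk, hz a 0 (n + 1) fun m _ => dB_zero al a _]
        exact zero_mem _
      obtain ⟨k, rfl⟩ := Nat.exists_eq_succ_of_ne_zero hk.ne'
      refine h2 G hal hbe a (n + 1) (fun j => psi a (j + 1) (n + 1)) ?_ ?_ k
      · intro i hi
        exact hz a (i + 1) (n + 1) fun m hm => hFs a (i + 1) m (by omega)
      · intro m
        -- the main identity at all levels
        have e1 : ∀ m', m' ≤ n + 1 →
            PowerSeries.coeff m' (Φ * ((LP al be a (n + 1) (s a))^[m] (fun j => s a (j + 1))) 0) =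
            PowerSeries.coeff m' (Φ * (PowerSeries.X * ∑ i ∈ Finset.range (n + 1 + 1),
              ∑ j ∈ Finset.range (n + 1 + 1), PowerSeries.C (X (b, i + 1) * X (c, j + 1)) *
                ((LP al be b (n + 1) (s b))^[m] (fun i' => g i' j)) i)) := by
          intro m' hm'
          have e2 := congrFun (conj_iter al be a (n + 1) (hds a) m (fun j => s a (j + 1))) 0
          have e3 : Φ * (PowerSeries.X * ∑ i ∈ Finset.range (n + 1 + 1),
              ∑ j ∈ Finset.range (n + 1 + 1), PowerSeries.C (X (b, i + 1) * X (c, j + 1)) *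
                ((LP al be b (n + 1) (s b))^[m] (fun i' => g i' j)) i) =
              PowerSeries.X * ∑ i ∈ Finset.range (n + 1 + 1),
              ∑ j ∈ Finset.range (n + 1 + 1), PowerSeries.C (X (b, i + 1) * X (c, j + 1)) *
                ((LP al be b (n + 1) (fun _ => 0))^[m] (fun i' => Ws i' j)) i := by
            rw [mul_left_comm, Finset.mul_sum]
            congr 1
            refine Finset.sum_congr rfl fun i _ => ?_
            rw [Finset.mul_sum]
            refine Finset.sum_congr rfl fun j _ => ?_
            rw [mul_left_comm]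
            congr 1
            have e4 := congrFun (conj_iter al be b (n + 1) (hds b) m (fun i' => g i' j)) i
            simp only [hΦg] at e4
            exact e4.symm
          rw [← e2, e3]
          simp only [← hds]
          rw [coeff_iter]
          simp only [coeff_dP]
          rcases Nat.eq_zero_or_pos m' with h0 | h0
          · have e5 : (fun i => dB al a (i + 1) (PowerSeries.coeff m' Φ)) = fun _ => 0 := by
              funext i
              rw [h0, hΦ0, dB_one]
            have e6 : ∀ m, (LB al be a (n + 1))^[m] (fun _ => (0 : B3 K)) = fun _ => 0 := by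
              intro m
              induction m with
              | zero => rfl
              | succ m ih =>
                have e7 : LB al be a (n + 1) (fun _ => (0 : B3 K)) = fun _ => 0 := by
                  funext i
                  unfold LB
                  simp
                rw [Function.iterate_succ_apply, e7, ih]
            rw [e5, e6, h0, PowerSeries.coeff_zero_X_mul]
          · obtain ⟨q, rfl⟩ := Nat.exists_eq_succ_of_ne_zero h0.ne'
            rw [Nat.succ_eq_add_one, PowerSeries.coeff_succ_X_mul, map_sum]
            have e5 := hW.E m (n + 1) q (by omega)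
            have e6 : PowerSeries.coeff (q + 1) Φ = F (q + 1) := by
              rw [hΦ, PowerSeries.coeff_mk]
            rw [e6, e5]
            refine Finset.sum_congr rfl fun i _ => ?_
            rw [map_sum]
            refine Finset.sum_congr rfl fun j _ => ?_
            rw [PowerSeries.coeff_C_mul, coeff_iter, LB1_iter_apply]
            simp only [hWc]
        have e2 := coeff_eq_of_mul hΦ0 e1 (le_refl (n + 1))
        have e3 := top_iter hal hbe a (n + 1) (hup a) (hs0 a) m
          (f := fun j => s a (j + 1)) (fun j => hup a (j + 1)) (fun j => hs0 a (j + 1)) 0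
        have e4 : PowerSeries.coeff (n + 1)
            (((LP al be a (n + 1) (s a))^[m] (fun j => s a (j + 1))) 0) ∈
            BI (σ := Fin 3 × ℕ) G := by
          rw [e2, PowerSeries.coeff_succ_X_mul, map_sum]
          refine sum_mem fun i _ => ?_
          rw [map_sum]
          refine sum_mem fun j _ => ?_
          rw [PowerSeries.coeff_C_mul]
          refine mul_mem (mul_mem (Int2M.X_mem G _) (Int2M.X_mem G _)) ?_
          exact Up_LP_iter hal hbe b (n + 1) (hup b) m (fun i' m' hm' => hg1 m' hm' i' j) i n le_rfl
        have e5 := sub_mem e4 e3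
        have e6 : ∀ u v : B3 K, u - (u - v) = v := by
          intro u v
          ring
        rw [e6] at e5
        simp only [hsc] at e5
        exact e5
  intro a k n
  exact key n a k n le_rfl

end

end Pool.Agent.MJD
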