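import Pool.Agent.MJD.Main
import Pool.Agent.MJL.Homm

/-!
Scaling of the power sums.
-/

namespace Pool.Agent.MJD

open MvPolynomial Pool.Agent.MJR Pool.Agent.MJR.GradeM Pool.Agent.MJT
open Pool.Agent.MJI (dB BI)

noncomputable section

variable {K : Type} [Field K]

/-- the scaling `X (a, k) ↦ c a X (a, k)` -/
def sc (c : Fin 3 → K) : B3 K →ₐ[K] B3 K := aeval fun s => C (c s.1) * X s

namespace ScalM

theorem sc_X (c : Fin 3 → K) (s : Fin 3 × ℕ) : sc c (X s) = C (c s.1) * X s := aeval_X _ _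

theorem sc_C (c : Fin 3 → K) (r : K) : sc c (C r) = C r := by
  unfold sc
  rw [aeval_C]
  rfl

theorem coeff_sc (c : Fin 3 → K) (f : B3 K) (e : Fin 3 × ℕ →₀ ℕ) :
    coeff e (sc c f) = (e.prod fun s n => c s.1 ^ n) * coeff e f := by
  classical
  have h1 : ∀ (e' : Fin 3 × ℕ →₀ ℕ) (r : K), sc c (monomial e' r) =
      monomial e' (r * e'.prod fun s n => c s.1 ^ n) := by
    intro e' r
    unfold sc
    rw [aeval_monomial]
    have h2 : (e'.prod fun s n => (C (c s.1) * X s : B3 K) ^ n) =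
        C (e'.prod fun s n => c s.1 ^ n) * monomial e' 1 := by
      have h3 : (monomial e' (1 : K) : B3 K) = e'.prod fun s n => (X s : B3 K) ^ n := by
        rw [monomial_eq, C_1, one_mul]
      rw [h3]
      simp only [mul_pow, Finsupp.prod, Finset.prod_mul_distrib, map_prod, map_pow]
    rw [h2]
    change (C r : B3 K) * _ = _
    rw [← mul_assoc, ← C_mul, C_mul_monomial, mul_one]
  induction f using MvPolynomial.induction_on' with
  | monomial e' r =>
    rw [h1, coeff_monomial, coeff_monomial]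
    split_ifs with h
    · rw [h, mul_comm]
    · rw [mul_zero]
  | add p q hp hq => rw [map_add, coeff_add, coeff_add, hp, hq, mul_add]

theorem dB_sc (al : K) (c : Fin 3 → K) (a : Fin 3) (k : ℕ) (f : B3 K) :
    dB al a k (sc c f) = C (c a) * sc c (dB al a k f) := by
  induction f using MvPolynomial.induction_on with
  | C r =>
    have h1 : ∀ r : K, dB al a k (C r : B3 K) = 0 := by
      intro r
      rw [Int2M.dB_apply]
      rw [pderiv_C, mul_zero]
    rw [sc_C, h1, map_zero, mul_zero]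
  | add p q hp hq => rw [map_add, map_add, hp, hq, map_add, map_add, mul_add]
  | mul_X p s hp =>
    have h2 : dB al a k (X s : B3 K) = C (if (a, k) = s then al * (k : K) else 0) := by
      rw [Int2M.dB_apply, pderiv_X]
      by_cases h : (a, k) = s
      · rw [if_pos h, ← h, Pi.single_eq_same, mul_one]
      · rw [if_neg h, Pi.single_eq_of_ne (fun h' => h h'.symm), mul_zero, C_0]
    have h3 : dB al a k (C (c s.1) * X s : B3 K) =
        C (c s.1) * C (if (a, k) = s then al * (k : K) else 0) := by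
      rw [Int1M.dB_C_mul, h2]
    rw [map_mul, Derivation.leibniz, hp, sc_X, h3, Derivation.leibniz, h2, map_add, smul_eq_mul,
      smul_eq_mul, smul_eq_mul, smul_eq_mul, map_mul, map_mul, sc_C, sc_X]
    split_ifs with h
    · rw [← h]
      ring
    · rw [C_0]
      ring

theorem dB_scal (al r : K) (a : Fin 3) (k : ℕ) (f : B3 K) :
    dB (al * r) a k f = C r * dB al a k f := by
  rw [Int2M.dB_apply, Int2M.dB_apply, ← mul_assoc, ← C_mul]
  congr 2
  ring

/-- the uniform scaling -/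
def su (c : K) : B3 K →ₐ[K] B3 K := sc fun _ => c

theorem LB_sc (al be : K) {c : K} (hc : c ≠ 0) (a : Fin 3) (N : ℕ) (f : ℕ → B3 K) (i : ℕ) :
    su c (LB al be a N f i) = C c * LB (al * (c⁻¹) ^ 2) (be * c⁻¹) a N (fun i => su c (f i)) i := by
  have e1 : ∀ k, su c (X (a, k) * f (i + k)) = C c * (X (a, k) * su c (f (i + k))) := by
    intro k
    unfold su
    rw [map_mul, sc_X, mul_assoc]
  have e2 : ∀ k, su c (dB al a k (f (i - k))) =
      C c * dB (al * (c⁻¹) ^ 2) a k (su c (f (i - k))) := by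
    intro k
    unfold su
    rw [dB_scal, dB_sc, ← mul_assoc, ← mul_assoc, ← C_mul, ← C_mul]
    have h : c * c⁻¹ ^ 2 * c = 1 := by
      field_simp
    rw [h, C_1, one_mul]
  have e3 : su c (C (be * (i : K)) * f i) = C c * (C (be * c⁻¹ * (i : K)) * su c (f i)) := by
    unfold su
    rw [map_mul, sc_C, ← mul_assoc, ← C_mul]
    congr 2
    field_simp
  unfold LB
  rw [map_add, map_add, map_sum, map_sum, e3, Finset.sum_congr rfl fun k _ => e1 k,
    Finset.sum_congr rfl fun k _ => e2 k, ← Finset.mul_sum, ← Finset.mul_sum, mul_add, mul_add]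

theorem LB_C (al be r : K) (a : Fin 3) (N : ℕ) (f : ℕ → B3 K) (i : ℕ) :
    LB al be a N (fun i => C r * f i) i = C r * LB al be a N f i :=
  (Int1M.LB_map al be a N (AddMonoidHom.mulLeft (C r)) (fun l f => mul_left_comm _ _ _)
    (fun l f => (Int1M.dB_C_mul al r a l f).symm) (fun l f => mul_left_comm _ _ _) f i).symm

theorem LB_iter_C (al be r : K) (a : Fin 3) (N m : ℕ) (f : ℕ → B3 K) (i : ℕ) :
    ((LB al be a N)^[m] (fun i => C r * f i)) i = C r * ((LB al be a N)^[m] f) i := by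
  induction m generalizing f with
  | zero => rfl
  | succ m ih =>
    have h : LB al be a N (fun i => C r * f i) = fun i => C r * LB al be a N f i := by
      funext i
      exact LB_C al be r a N f i
    rw [Function.iterate_succ_apply, Function.iterate_succ_apply, h, ih]

theorem LB_iter_sc (al be : K) {c : K} (hc : c ≠ 0) (a : Fin 3) (N m : ℕ) (f : ℕ → B3 K)
    (i : ℕ) : su c (((LB al be a N)^[m] f) i) =
      C (c ^ m) * ((LB (al * (c⁻¹) ^ 2) (be * c⁻¹) a N)^[m] (fun i => su c (f i))) i := by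
  induction m generalizing f with
  | zero =>
    rw [pow_zero, C_1, one_mul]
    rfl
  | succ m ih =>
    rw [Function.iterate_succ_apply, Function.iterate_succ_apply, ih]
    have h : (fun i => su c (LB al be a N f i)) =
        fun i => C c * LB (al * (c⁻¹) ^ 2) (be * c⁻¹) a N (fun i => su c (f i)) i := by
      funext i
      exact LB_sc al be hc a N f i
    rw [h, LB_iter_C, ← mul_assoc, ← C_mul, ← pow_succ]

theorem LB1_iter_apply (al be : K) (b : Fin 3) (N m : ℕ) (h : ℕ → ℕ → B3 K) (i j : ℕ) :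
    ((LB1 al be b N)^[m] h) i j = ((LB al be b N)^[m] (fun i' => h i' j)) i :=
  MainM.LB1_iter_apply al be b N m h i j

/-- The system after scaling. -/
theorem sys_sc (al be : K) {c : K} (hc : c ≠ 0) {a b c' : Fin 3} {F : ℕ → B3 K}
    {W : ℕ → ℕ → ℕ → B3 K} (h : Sys al be a b c' F W) :
    Sys (al * (c⁻¹) ^ 2) (be * c⁻¹) a b c' (fun n => C ((c⁻¹) ^ n) * su c (F n))
      (fun n i j => C ((c⁻¹) ^ n) * su c (W n i j)) where
  z1 n i := by
    beta_reduce
    rw [h.z1]
    split_ifs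
    · rfl
    · rw [map_zero, mul_zero]
  s1 n i j hij := by
    beta_reduce
    rw [h.s1 n i j hij, map_zero, mul_zero]
  s2 n i j hij := by
    beta_reduce
    rw [h.s2 n i j hij, map_zero, mul_zero]
  L N n hn i j := by
    have e1 := h.L N n hn i j
    unfold LB1 LB2 at e1 ⊢
    rw [LB_C, LB_C]
    congr 1
    have e2 := congrArg (su c) e1
    rw [LB_sc al be hc, LB_sc al be hc] at e2
    have hc' : (C c : B3 K) ≠ 0 := by
      intro h0
      exact hc (C_injective _ _ (by rw [h0, C_0]))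
    exact mul_left_cancel₀ hc' e2
  E m N n hn := by
    have e1 := congrArg (su c) (h.E m N n hn)
    have e2 : (fun j => dB (al * (c⁻¹) ^ 2) a (j + 1) (C ((c⁻¹) ^ (n + 1)) * su c (F (n + 1)))) =
        fun j => C ((c⁻¹) ^ (n + 2)) * su c (dB al a (j + 1) (F (n + 1))) := by
      funext j
      unfold su
      rw [Int1M.dB_C_mul, dB_scal, dB_sc, ← mul_assoc, ← mul_assoc, ← C_mul, ← C_mul]
      congr 2
      have h1 : c⁻¹ ^ (n + 1) * c⁻¹ ^ 2 * c = c⁻¹ ^ (n + 2) * (c⁻¹ * c) := by ring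
      rw [h1, inv_mul_cancel₀ hc, mul_one]
    have e3 : ∀ i j, ((LB1 (al * (c⁻¹) ^ 2) (be * c⁻¹) b N)^[m]
        (fun i j => C ((c⁻¹) ^ n) * su c (W n i j))) i j =
        C ((c⁻¹) ^ (n + m)) * su c (((LB1 al be b N)^[m] (W n)) i j) := by
      intro i j
      rw [LB1_iter_apply, LB1_iter_apply, LB_iter_C, LB_iter_sc al be hc, ← mul_assoc, ← C_mul]
      congr 2
      have h1 : c⁻¹ ^ (n + m) * c ^ m = c⁻¹ ^ n * (c⁻¹ * c) ^ m := by ring
      rw [h1, inv_mul_cancel₀ hc, one_pow, mul_one]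
    have e4 : ∀ i j, su c (X (b, i + 1) * X (c', j + 1) * ((LB1 al be b N)^[m] (W n)) i j) =
        C (c ^ (2 + (n + m))) * (X (b, i + 1) * X (c', j + 1) *
          (C ((c⁻¹) ^ (n + m)) * su c (((LB1 al be b N)^[m] (W n)) i j))) := by
      intro i j
      rw [map_mul, map_mul]
      have h1 : su c (X (b, i + 1) : B3 K) = C c * X (b, i + 1) := sc_X _ _
      have h2 : su c (X (c', j + 1) : B3 K) = C c * X (c', j + 1) := sc_X _ _
      rw [h1, h2]
      have h3 : (C (c ^ (2 + (n + m))) : B3 K) * C ((c⁻¹) ^ (n + m)) = C c * C c := by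
        rw [← C_mul, ← C_mul]
        congr 1
        have h4 : c ^ (2 + (n + m)) * c⁻¹ ^ (n + m) = c * c * (c⁻¹ * c) ^ (n + m) := by ring
        rw [h4, inv_mul_cancel₀ hc, one_pow, mul_one]
      calc C c * X (b, i + 1) * (C c * X (c', j + 1)) * su c (((LB1 al be b N)^[m] (W n)) i j)
          = (C c * C c) * (X (b, i + 1) * X (c', j + 1) *
            su c (((LB1 al be b N)^[m] (W n)) i j)) := by ring
        _ = _ := by
          rw [← h3]
          ring
    rw [map_sum, LB_iter_sc al be hc] at e1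
    have e5 : ∀ i, su c (∑ j ∈ Finset.range (N + 1),
        X (b, i + 1) * X (c', j + 1) * ((LB1 al be b N)^[m] (W n)) i j) =
        C (c ^ (2 + (n + m))) * ∑ j ∈ Finset.range (N + 1), (X (b, i + 1) * X (c', j + 1) *
          ((LB1 (al * (c⁻¹) ^ 2) (be * c⁻¹) b N)^[m]
            (fun i j => C ((c⁻¹) ^ n) * su c (W n i j))) i j) := by
      intro i
      rw [map_sum, Finset.mul_sum]
      refine Finset.sum_congr rfl fun j _ => ?_
      rw [e4, e3]
    rw [Finset.sum_congr rfl fun i _ => e5 i, ← Finset.mul_sum] at e1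
    rw [e2, LB_iter_C]
    have hc' : (C (c ^ (2 + (n + m))) : B3 K) ≠ 0 := by
      intro h0
      exact pow_ne_zero (2 + (n + m)) hc (C_injective _ _ (by rw [h0, C_0]))
    apply mul_left_cancel₀ hc'
    rw [← e1, ← mul_assoc, ← C_mul]
    congr 2
    have h4 : c ^ (2 + (n + m)) * c⁻¹ ^ (n + 2) = c ^ m * (c⁻¹ * c) ^ (n + 2) := by ring
    rw [h4, inv_mul_cancel₀ hc, one_pow, mul_one]

/-- The logarithmic derivatives after scaling. -/
theorem psi_sc (al : K) {c : K} (hc : c ≠ 0) (F : ℕ → B3 K) (psi : Fin 3 → ℕ → ℕ → B3 K)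
    (h : ∀ a k n, dB al a k (F n) =
      ∑ x ∈ Finset.HasAntidiagonal.antidiagonal n, F x.1 * psi a k x.2) (a : Fin 3) (k n : ℕ) :
    dB (al * (c⁻¹) ^ 2) a k (C ((c⁻¹) ^ n) * su c (F n)) =
      ∑ x ∈ Finset.HasAntidiagonal.antidiagonal n, (C ((c⁻¹) ^ x.1) * su c (F x.1)) *
        (C ((c⁻¹) ^ (x.2 + 1)) * su c (psi a k x.2)) := by
  have e1 : dB (al * (c⁻¹) ^ 2) a k (C ((c⁻¹) ^ n) * su c (F n)) =
      C ((c⁻¹) ^ (n + 1)) * su c (dB al a k (F n)) := by
    unfold su
    rw [Int1M.dB_C_mul, dB_scal, dB_sc, ← mul_assoc, ← mul_assoc, ← C_mul, ← C_mul]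
    congr 2
    have h1 : c⁻¹ ^ n * c⁻¹ ^ 2 * c = c⁻¹ ^ (n + 1) * (c⁻¹ * c) := by ring
    rw [h1, inv_mul_cancel₀ hc, mul_one]
  rw [e1, h, map_sum, Finset.mul_sum]
  refine Finset.sum_congr rfl fun x hx => ?_
  rw [Finset.HasAntidiagonal.mem_antidiagonal] at hx
  rw [map_mul, ← hx, add_assoc, pow_add, C_mul]
  ring

end ScalM

end

end Pool.Agent.MJD
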