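import Pool.Agent.MJD.Deg
import Pool.Agent.MJL.Mgc
import Pool.Agent.MJL.TruA
import Pool.Agent.MJL.Fin5

/-!
The leading coefficients of the coefficients `h` if one partition has at most two parts.
-/

namespace Pool.Agent.MJD

open MvPolynomial Pool.Agent.MJR Pool.Agent.MJR.GradeM Pool.Agent.MJT
open InfM

noncomputable section

namespace TopM

theorem nb_eq {y : QA} (h : y ∈ Nb (RatFunc.X : QA)) :
    ∃ P : Polynomial ℚ, (∀ i, 0 ≤ P.coeff i) ∧ y = evb P := by
  obtain ⟨P, rfl⟩ := h
  refine ⟨P.map (Nat.castRingHom ℚ), fun i => ?_, ?_⟩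
  · rw [Polynomial.coeff_map]
    exact Nat.cast_nonneg _
  · unfold evb
    rw [Polynomial.eval₂_map, Polynomial.coe_eval₂RingHom]
    congr 1
    exact RingHom.ext fun k => by simp

/-- An element of `ℕ[b]` of degree at most `d` is in all cones. -/
theorem nb_mem {y : QA} (h : y ∈ Nb (RatFunc.X : QA)) (d : ℤ) (hd : bb ^ (-d) * y ∈ Oi) (k : ℕ) :
    bb ^ (-d) * y ∈ Pk k := by
  obtain ⟨P, hP, rfl⟩ := nb_eq h
  exact mem_of_nonneg k P d (coeff_zero_of P d hd) fun i _ => hP i

/-- the exponent of the degree of `h` -/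
def gg {n : ℕ} (t m v : n.Partition) : ℤ :=
  (n : ℤ) + 2 - t.parts.card - m.parts.card - v.parts.card

variable {J : (n : ℕ) → n.Partition → n.Partition → QA} {psi : PowerSeries (B3 QA)}

theorem good_mem (hJ : ∀ n, IsJack RatFunc.X n (J n)) (hpsi : IsPsi RatFunc.X J psi) {n : ℕ}
    (t m v : n.Partition) (h : Good t ∨ Good m ∨ Good v) (k : ℕ) :
    bb ^ (-gg t m v) * hc psi t m v ∈ Pk k := by
  have h1 := MJL.fin5 (MJI.fin (MJI.mainSt _ _) MJI.sysSt (MJI.per _ _) MJI.phim) hJ hpsi t m v h
  exact nb_mem h1 _ (DegM.deg_h J hJ psi hpsi t m v) k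

theorem count_eq {n : ℕ} (v : n.Partition) (j : ℕ) :
    ((v.parts.powersetCard 1).filter fun a => a.sum = j).card = v.parts.count j := by
  rw [Multiset.powersetCard_one, Multiset.filter_map, Multiset.card_map, Multiset.count,
    Multiset.countP_eq_card_filter]
  congr 1
  refine Multiset.filter_congr fun x _ => ?_
  simp only [Function.comp_apply, Multiset.sum_singleton]
  exact eq_comm

/-- The leading coefficient is nonnegative if the last partition has two parts. -/
theorem two_mem (hJ : ∀ n, IsJack RatFunc.X n (J n)) (hpsi : IsPsi RatFunc.X J psi) {n : ℕ}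
    (t m v : n.Partition) (hv : v.parts.card = 2) :
    bb ^ (-gg t m v) * hc psi t m v ∈ Pk 1 := by
  classical
  obtain ⟨j, k, hjk⟩ := Multiset.card_eq_two.1 hv
  have hj : 0 < j := v.parts_pos (by rw [hjk]; simp)
  have hk : 0 < k := v.parts_pos (by rw [hjk]; simp)
  have hn : j + k = n := by
    have h := v.parts_sum
    rw [hjk] at h
    simpa using h
  have hD := DegM.deg_h J hJ psi hpsi t m
  have h1 := MJL.logMarg MJL.truA J hJ psi hpsi n t m 1 j
  simp only [count_eq] at h1
  set d : ℤ := gg t m v with hd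
  -- all terms but that of `v` are small
  have h2 : ∀ w : n.Partition, w ≠ v → ∃ o ∈ Oi,
      bb ^ (-d) * (((w.parts.count j : ℕ) : QA) * hc psi t m w) = ep * o := by
    intro w hw
    by_cases h0 : j ∈ w.parts
    · have hc3 : 3 ≤ w.parts.card := by
        by_contra h3
        have h4 : w.parts.card = 1 ∨ w.parts.card = 2 := by
          have h5 : 0 < w.parts.card := Multiset.card_pos_iff_exists_mem.2 ⟨j, h0⟩
          omega
        have hs := w.parts_sum
        rcases h4 with h4 | h4
        · obtain ⟨a, ha⟩ := Multiset.card_eq_one.1 h4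
          rw [ha] at h0 hs
          rw [Multiset.mem_singleton] at h0
          rw [Multiset.sum_singleton] at hs
          omega
        · obtain ⟨a, ha⟩ := Multiset.exists_cons_of_mem h0
          rw [ha, Multiset.card_cons] at h4
          obtain ⟨x, hx⟩ := Multiset.card_eq_one.1 (show a.card = 1 by omega)
          rw [ha, hx, Multiset.sum_cons, Multiset.sum_singleton] at hs
          apply hw
          apply Nat.Partition.ext
          rw [ha, hx, hjk]
          have hxk : x = k := by omega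
          rw [hxk]
          rfl
      obtain ⟨c, hc'⟩ := Nat.exists_eq_add_of_le hc3
      refine ⟨((w.parts.count j : ℕ) : QA) * (bb ^ (-(c : ℤ)) * (bb ^ (-gg t m w) * hc psi t m w)),
        ?_, ?_⟩
      · exact mul_mem (natCast_mem _ _) (mul_mem (zpow_mem (by omega)) (hD w))
      · have e1 : -d = -1 + (-(c : ℤ)) + (-gg t m w) := by
          rw [hd]
          unfold gg
          rw [hv, hc']
          push_cast
          ring
        rw [e1, zpow_add₀ bb_ne, zpow_add₀ bb_ne, zpow_neg_one]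
        unfold ep
        ring
    · refine ⟨0, zero_mem _, ?_⟩
      rw [Multiset.count_eq_zero.2 h0, Nat.cast_zero, zero_mul, mul_zero, mul_zero]
  have h3 : ∃ o ∈ Oi, bb ^ (-d) * ∑ w ∈ Finset.univ.erase v,
      ((w.parts.count j : ℕ) : QA) * hc psi t m w = ep * o := by
    have h4 : ∀ s : Finset n.Partition, (∀ w ∈ s, w ≠ v) → ∃ o ∈ Oi, bb ^ (-d) * ∑ w ∈ s,
      ((w.parts.count j : ℕ) : QA) * hc psi t m w = ep * o := by
      intro s
      induction s using Finset.induction_on with
      | empty =>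
        intro _
        exact ⟨0, zero_mem _, by rw [Finset.sum_empty, mul_zero, mul_zero]⟩
      | insert a s ha ih =>
        intro h
        obtain ⟨o, ho, e⟩ := ih fun w hw => h w (Finset.mem_insert_of_mem hw)
        obtain ⟨o', ho', e'⟩ := h2 a (h a (Finset.mem_insert_self _ _))
        exact ⟨o' + o, add_mem ho' ho, by rw [Finset.sum_insert ha, mul_add, e, e', mul_add]⟩
    exact h4 _ fun w hw => Finset.ne_of_mem_erase hw
  obtain ⟨o, ho, e⟩ := h3
  rw [← Finset.add_sum_erase _ _ (Finset.mem_univ v)] at h1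
  set c : ℕ := v.parts.count j with hcj
  have hc0 : (c : QA) ≠ 0 := by
    rw [Nat.cast_ne_zero, hcj]
    exact (Multiset.count_pos.2 (by rw [hjk]; simp)).ne'
  have e2 : bb ^ (-d) * ((c : QA) * hc psi t m v + ∑ w ∈ Finset.univ.erase v,
      ((w.parts.count j : ℕ) : QA) * hc psi t m w) =
      (c : QA) * (bb ^ (-d) * hc psi t m v) + ep * o := by
    rw [mul_add, e]
    ring
  have h5 : bb ^ (-d) * ((c : QA) * hc psi t m v + ∑ w ∈ Finset.univ.erase v,
      ((w.parts.count j : ℕ) : QA) * hc psi t m w) ∈ Oi := by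
    rw [e2]
    exact add_mem (mul_mem (natCast_mem _ _) (hD v)) (mul_mem ep_mem ho)
  have h6 := nb_mem h1 d h5 1
  rw [e2] at h6
  have h7 : ep ^ 1 * (-o) ∈ Pk 1 := ep_Oi_mem (neg_mem ho)
  have h8 := mul_mem (inv_mem 1 c) (add_mem h6 h7)
  have e3 : (c : QA)⁻¹ * ((c : QA) * (bb ^ (-d) * hc psi t m v) + ep * o + ep ^ 1 * (-o)) =
      bb ^ (-d) * hc psi t m v := by
    rw [pow_one, add_assoc, mul_neg, add_neg_cancel, add_zero, ← mul_assoc,
      inv_mul_cancel₀ hc0, one_mul]
  rw [e3] at h8
  exact h8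

/-- The leading coefficients of `h`, multiplied by `eta ^ (l(t) - 1)`. -/
theorem eta_mem (hJ : ∀ n, IsJack RatFunc.X n (J n)) (hpsi : IsPsi RatFunc.X J psi) {n : ℕ}
    (t m v : n.Partition) (ht : t.parts.card ≠ 0) :
    (RatFunc.X * ep ^ 2) ^ (t.parts.card - 1) * (bb ^ (-gg t m v) * hc psi t m v) ∈ Pk 2 := by
  have hX : (RatFunc.X : QA) * ep ^ 2 = ep * (1 + ep) := by
    have h : (RatFunc.X : QA) = bb + 1 := by
      unfold bb
      ring
    rw [h]
    have e : bb * ep = 1 := mul_inv_cancel₀ bb_ne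
    calc (bb + 1) * ep ^ 2 = (bb * ep) * ep + ep ^ 2 := by ring
      _ = _ := by rw [e]; ring
  have h1e : 1 + ep ∈ Pk 2 := add_mem (one_mem _) (ep_mem_Pk 2)
  have hD := DegM.deg_h J hJ psi hpsi t m v
  have hs := symM QA RatFunc.X RatFunc.X_ne_zero J hJ psi hpsi n
  rcases lt_trichotomy t.parts.card 2 with h | h | h
  · have h1 : t.parts.card = 1 := by omega
    rw [h1, Nat.sub_self, pow_zero, one_mul]
    refine good_mem hJ hpsi t m v (Or.inl (Or.inr (Or.inl ?_))) 2
    obtain ⟨a, ha⟩ := Multiset.card_eq_one.1 h1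
    have hs := t.parts_sum
    rw [ha, Multiset.sum_singleton] at hs
    exact ⟨a, by rw [ha]; exact Multiset.mem_singleton_self a, by omega⟩
  · rw [h]
    have e1 : gg t m v = gg m v t := by
      unfold gg
      ring
    have e2 : hc psi t m v = hc psi m v t := by
      rw [(hs t m v).1, (hs m t v).2]
    rw [e1, e2]
    have h2 := two_mem hJ hpsi m v t h
    have h3 := mul_mem h1e (mul_ep_mem h2)
    have e3 : (1 + ep) * (ep * (bb ^ (-gg m v t) * hc psi m v t)) =
        (RatFunc.X * ep ^ 2) ^ (2 - 1) * (bb ^ (-gg m v t) * hc psi m v t) := by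
      rw [hX]
      ring
    rw [e3] at h3
    exact h3
  · obtain ⟨c, hc'⟩ := Nat.exists_eq_add_of_lt h
    have e1 : (RatFunc.X * ep ^ 2) ^ (t.parts.card - 1) * (bb ^ (-gg t m v) * hc psi t m v) =
        ep ^ 2 * ((ep ^ c * (1 + ep) ^ (c + 2)) * (bb ^ (-gg t m v) * hc psi t m v)) := by
      rw [hX, hc']
      have : 2 + c + 1 - 1 = c + 2 := by omega
      rw [this, mul_pow]
      ring
    rw [e1]
    exact ep_Oi_mem (mul_mem (mul_mem (pow_mem ep_mem _)
      (pow_mem (add_mem (one_mem _) ep_mem) _)) hD)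

end TopM

end

end Pool.Agent.MJD
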